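import Pool.Agent.R929.Shang.Defs

/-!
# The components of the free alternative algebra: a lower bound for the dimension
-/

set_option autoImplicit false

noncomputable section

open MvPowerSeries

namespace Pool.Agent.R929.Shang

variable {k : Type} [Field k] {D : ℕ}

/-- The associative word of a nonassociative monomial. -/
def word : FreeMagma (Fin D) → FreeMonoid (Fin D)
  | FreeMagma.of i => FreeMonoid.of i
  | FreeMagma.mul u w => word u * word w

theorem word_mul (u w : FreeMagma (Fin D)) : word (u * w) = word u * word w := rfl

theorem content_mul (u w : FreeMagma (Fin D)) : content (u * w) = content u + content w := rfl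

/-- The homomorphism to the free associative algebra. -/
def toAssoc (k : Type) [Field k] (D : ℕ) :
    FreeNA k D →ₙₐ[k] MonoidAlgebra k (FreeMonoid (Fin D)) :=
  FreeNonUnitalNonAssocAlgebra.lift k
    (fun i => (MonoidAlgebra.single (FreeMonoid.of i) 1 : MonoidAlgebra k (FreeMonoid (Fin D))))

theorem toAssoc_single (w : FreeMagma (Fin D)) :
    toAssoc k D (MonoidAlgebra.single w 1) = MonoidAlgebra.single (word w) 1 := by
  induction w with
  | ih1 i => exact FreeNonUnitalNonAssocAlgebra.lift_of_apply k _ i
  | ih2 u w hu hw =>
    have h1 : (MonoidAlgebra.single (u * w) 1 : FreeNA k D) =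
        MonoidAlgebra.single u 1 * MonoidAlgebra.single w 1 := by
      rw [MonoidAlgebra.single_mul_single, one_mul]
    rw [h1, map_mul, hu, hw, MonoidAlgebra.single_mul_single, one_mul]; rfl

/-- The homomorphism as a linear map. -/
def toAssocL (k : Type) [Field k] (D : ℕ) :
    FreeNA k D →ₗ[k] MonoidAlgebra k (FreeMonoid (Fin D)) where
  toFun := toAssoc k D
  map_add' := map_add _
  map_smul' := map_smul _

theorem altIdeal_le_ker : altIdeal k D ≤ LinearMap.ker (toAssocL k D) := by
  refine sInf_le ⟨fun x y => ⟨?_, ?_⟩, fun x hx y => ⟨?_, ?_⟩⟩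
  · show toAssoc k D _ = 0
    rw [map_sub, map_mul, map_mul, map_mul, map_mul, mul_assoc, sub_self]
  · show toAssoc k D _ = 0
    rw [map_sub, map_mul, map_mul, map_mul, map_mul, mul_assoc, sub_self]
  · have hx' : toAssoc k D x = 0 := hx
    show toAssoc k D _ = 0
    rw [map_mul, hx', zero_mul]
  · have hx' : toAssoc k D x = 0 := hx
    show toAssoc k D _ = 0
    rw [map_mul, hx', mul_zero]

/-- The linear map from `Alt(V)` to the free associative algebra. -/
def altToAssoc (k : Type) [Field k] (D : ℕ) :
    Alt k D →ₗ[k] MonoidAlgebra k (FreeMonoid (Fin D)) :=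
  (altIdeal k D).liftQ (toAssocL k D) altIdeal_le_ker

theorem altToAssoc_mkQ (w : FreeMagma (Fin D)) :
    altToAssoc k D ((altIdeal k D).mkQ (MonoidAlgebra.single w 1)) =
      MonoidAlgebra.single (word w) 1 := toAssoc_single w

/-! ### Finiteness -/

theorem content_degree (w : FreeMagma (Fin D)) : (content w).degree = w.length := by
  induction w with
  | ih1 i => simp [content, FreeMagma.length]
  | ih2 u w hu hw =>
    have h1 : content (u * w) = content u + content w := rfl
    have h2 : (u * w).length = u.length + w.length := rfl
    rw [h1, h2, map_add, hu, hw]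

theorem finite_length (n : ℕ) : {w : FreeMagma (Fin D) | w.length ≤ n}.Finite := by
  induction n with
  | zero =>
    convert Set.finite_empty (α := FreeMagma (Fin D))
    ext w
    simp only [Set.mem_ofPred_eq, Set.mem_empty_iff_false, iff_false]
    have := w.length_pos
    omega
  | succ n ih =>
    have h1 : {w : FreeMagma (Fin D) | w.length ≤ n + 1} ⊆
        Set.range (FreeMagma.of : Fin D → _) ∪
          Set.image2 (fun u w => u * w) {w | w.length ≤ n} {w | w.length ≤ n} := by
      intro w hw
      cases w with
      | of i => exact Or.inl ⟨i, rfl⟩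
      | mul u w =>
        have h2 : (FreeMagma.mul u w).length = u.length + w.length := rfl
        have h3 : (FreeMagma.mul u w).length ≤ n + 1 := hw
        have h4 := u.length_pos
        have h5 := w.length_pos
        exact Or.inr ⟨u, by show u.length ≤ n; omega, w, by show w.length ≤ n; omega, rfl⟩
    exact ((Set.finite_range _).union (ih.image2 _ ih)).subset h1

instance altPiece_finite (m : Fin D →₀ ℕ) : Module.Finite k (altPiece k D m) := by
  have h1 : {z | ∃ w : FreeMagma (Fin D), content w = m ∧
      z = (altIdeal k D).mkQ (MonoidAlgebra.single w 1)}.Finite := by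
    refine ((finite_length (D := D) m.degree).image
      (fun w => (altIdeal k D).mkQ (MonoidAlgebra.single w 1))).subset ?_
    rintro z ⟨w, hw, rfl⟩
    exact ⟨w, by show w.length ≤ m.degree; rw [← hw, content_degree], rfl⟩
  exact FiniteDimensional.span_of_finite k h1

/-! ### Words -/

/-- The left normed monomial `(⋯((i l_1) l_2) ⋯)`. -/
def leftNormed (i : Fin D) (l : List (Fin D)) : FreeMagma (Fin D) :=
  l.foldl (fun u j => u * FreeMagma.of j) (FreeMagma.of i)

theorem word_foldl (l : List (Fin D)) (u : FreeMagma (Fin D)) :
    word (l.foldl (fun u j => u * FreeMagma.of j) u) = word u * FreeMonoid.ofList l := by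
  induction l generalizing u with
  | nil => exact (mul_one _).symm
  | cons a l ih =>
    rw [List.foldl_cons, ih, word_mul, mul_assoc]; rfl

theorem word_leftNormed (i : Fin D) (l : List (Fin D)) :
    word (leftNormed i l) = FreeMonoid.ofList (i :: l) := by
  rw [leftNormed, word_foldl]; rfl

theorem content_foldl (l : List (Fin D)) (u : FreeMagma (Fin D)) :
    content (l.foldl (fun u j => u * FreeMagma.of j) u) =
      content u + (l.map fun j => Finsupp.single j 1).sum := by
  induction l generalizing u with
  | nil => simp
  | cons a l ih =>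
    rw [List.foldl_cons, ih, content_mul, List.map_cons, List.sum_cons, add_assoc]; rfl

theorem content_leftNormed (i : Fin D) (l : List (Fin D)) :
    content (leftNormed i l) = ((i :: l).map fun j => (Finsupp.single j 1 : Fin D →₀ ℕ)).sum := by
  rw [leftNormed, content_foldl]; rfl

/-- The number of the words of length `n + 1` and multidegree `m` is at most the dimension of the
component of multidegree `m` of `Alt(V)`. -/
theorem card_le_finrank (n : ℕ) (m : Fin D →₀ ℕ) (S : Finset (Fin (n + 1) → Fin D))
    (hS : ∀ f ∈ S, ∑ j, (Finsupp.single (f j) 1 : Fin D →₀ ℕ) = m) :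
    S.card ≤ Module.finrank k (altPiece k D m) := by
  classical
  have hmem : ∀ f : S, (altIdeal k D).mkQ
      (MonoidAlgebra.single (leftNormed (f.1 0) (List.ofFn (Fin.tail f.1))) 1) ∈
        altPiece k D m := by
    intro f
    refine Submodule.subset_span ⟨_, ?_, rfl⟩
    rw [content_leftNormed, ← hS f.1 f.2, ← List.sum_ofFn]
    congr 1
    have h1 : (f.1 0 :: List.ofFn (Fin.tail f.1)) = List.ofFn f.1 := by
      rw [List.ofFn_succ]; rfl
    rw [h1, List.map_ofFn]; rfl
  let v : S → altPiece k D m := fun f => ⟨_, hmem f⟩
  have hli : LinearIndependent k v := by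
    refine LinearIndependent.of_comp ((altToAssoc k D).comp (altPiece k D m).subtype) ?_
    have h2 : (⇑((altToAssoc k D).comp (altPiece k D m).subtype) ∘ v) =
        fun f : S => (MonoidAlgebra.single (FreeMonoid.ofList (List.ofFn f.1)) 1 :
          MonoidAlgebra k (FreeMonoid (Fin D))) := by
      funext f
      show altToAssoc k D ((altIdeal k D).mkQ _) = _
      rw [altToAssoc_mkQ, word_leftNormed]
      have h1 : (f.1 0 :: List.ofFn (Fin.tail f.1)) = List.ofFn f.1 := by
        rw [List.ofFn_succ]; rfl
      rw [h1]
    rw [h2]
    have h3 : LinearIndependent k (fun w : FreeMonoid (Fin D) =>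
        (MonoidAlgebra.single w 1 : MonoidAlgebra k (FreeMonoid (Fin D)))) := by
      have h4 : LinearIndependent k (fun w : FreeMonoid (Fin D) =>
        (Finsupp.single w 1 : FreeMonoid (Fin D) →₀ k)) :=
          Finsupp.linearIndependent_single_one k _
      have h5 := h4.map' (MonoidAlgebra.coeffLinearEquiv k).symm.toLinearMap
        (LinearEquiv.ker _)
      exact h5
    refine h3.comp (fun f : S => FreeMonoid.ofList (List.ofFn f.1)) ?_
    intro f g hfg
    exact Subtype.ext (List.ofFn_injective (FreeMonoid.ofList.injective hfg))
  have h6 := hli.fintype_card_le_finrank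
  rwa [Fintype.card_coe] at h6

end Pool.Agent.R929.Shang

end
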