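import Pool.Agent.R929.Shang.Sem

/-!
# The recursion in one variable
-/

set_option autoImplicit false

noncomputable section

namespace Pool.Agent.R929.Shang

open PowerSeries

/-- `1 - t ^ n e ^ w` as an invertible power series. -/
def ufac (n : ℕ) (w : ℤ × ℤ) : (PowerSeries Wt)ˣ :=
  open Classical in
  if h : IsUnit (1 - monomial n (ex w) : PowerSeries Wt) then h.unit else 1

theorem isUnit_ufac {n : ℕ} (hn : n ≠ 0) (w : ℤ × ℤ) :
    IsUnit (1 - monomial n (ex w) : PowerSeries Wt) := by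
  rw [PowerSeries.isUnit_iff_constantCoeff, map_sub, map_one]
  rw [← PowerSeries.coeff_zero_eq_constantCoeff_apply, PowerSeries.coeff_monomial,
    if_neg (Ne.symm hn), sub_zero]
  exact isUnit_one

theorem ufac_val {n : ℕ} (hn : n ≠ 0) (w : ℤ × ℤ) :
    (ufac n w : PowerSeries Wt) = 1 - C (ex w) * X ^ n := by
  rw [ufac, dif_pos (isUnit_ufac hn w), IsUnit.unit_spec, monomial_eq_mk,
    ← PowerSeries.monomial_eq_mk]
  congr 1
  ext i
  rw [PowerSeries.coeff_monomial, PowerSeries.coeff_C_mul, PowerSeries.coeff_X_pow]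
  split_ifs <;> simp

/-- The factor for `n`. -/
def G (n : ℕ) (a b : ℤ) : (PowerSeries Wt)ˣ :=
  ufac n (0, 0) ^ (b + 2 * a) * ∏ w ∈ roots, ufac n w ^ a

/-- The units which are `1` modulo `t ^ n`. -/
def H (n : ℕ) : Subgroup (PowerSeries Wt)ˣ :=
  (Units.map (Ideal.Quotient.mk (Ideal.span {(X : PowerSeries Wt) ^ n})).toMonoidHom).ker

theorem mem_H {n : ℕ} {u : (PowerSeries Wt)ˣ} :
    u ∈ H n ↔ (X : PowerSeries Wt) ^ n ∣ (u : PowerSeries Wt) - 1 := by
  rw [H, MonoidHom.mem_ker, Units.ext_iff, Units.coe_map, Units.val_one]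
  show Ideal.Quotient.mk _ (u : PowerSeries Wt) = 1 ↔ _
  rw [← map_one (Ideal.Quotient.mk _), Ideal.Quotient.eq, Ideal.mem_span_singleton]

theorem H_mono {n m : ℕ} (h : n ≤ m) : H m ≤ H n := fun u hu =>
  mem_H.2 ((pow_dvd_pow _ h).trans (mem_H.1 hu))

theorem ufac_mem {n : ℕ} (hn : n ≠ 0) (w : ℤ × ℤ) : ufac n w ∈ H n := by
  rw [mem_H, ufac_val hn]
  exact ⟨-C (ex w), by ring⟩

theorem G_mem {n : ℕ} (hn : n ≠ 0) (a b : ℤ) : G n a b ∈ H n :=
  mul_mem (zpow_mem (ufac_mem hn _) _) (prod_mem fun w _ => zpow_mem (ufac_mem hn w) _)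

/-- The coefficient of `t ^ n` is additive on the units that are `1` modulo `t ^ n`. -/
def del (n : ℕ) (hn : n ≠ 0) : H n →* Multiplicative Wt :=
  MonoidHom.mk' (fun u => Multiplicative.ofAdd (coeff n (u.1 : PowerSeries Wt))) (by
    intro u v
    obtain ⟨f, hf⟩ := mem_H.1 u.2
    obtain ⟨g, hg⟩ := mem_H.1 v.2
    have hu : (u.1 : PowerSeries Wt) = 1 + X ^ n * f := by rw [← hf]; ring
    have hv : (v.1 : PowerSeries Wt) = 1 + X ^ n * g := by rw [← hg]; ring
    rw [← ofAdd_add]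
    congr 1
    show coeff n ((u.1 : PowerSeries Wt) * (v.1 : PowerSeries Wt)) = _
    rw [hu, hv]
    have h1 : (1 + X ^ n * f) * (1 + X ^ n * g) = 1 + X ^ n * f + X ^ n * g +
        X ^ n * (X ^ n * (f * g)) := by ring
    have h2 : coeff n (X ^ n * (X ^ n * (f * g)) : PowerSeries Wt) = 0 := by
      rw [coeff_X_pow_mul', if_pos le_rfl, Nat.sub_self, coeff_X_pow_mul', if_neg (by omega)]
    have h3 : coeff n (1 : PowerSeries Wt) = 0 := by rw [coeff_one, if_neg hn]
    rw [h1]; simp only [map_add, h2, h3]; ring)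

theorem del_apply {n : ℕ} (hn : n ≠ 0) (u : H n) :
    (del n hn u).toAdd = coeff n (u.1 : PowerSeries Wt) := rfl

theorem coeff_ufac {n : ℕ} (hn : n ≠ 0) (w : ℤ × ℤ) :
    coeff n (ufac n w : PowerSeries Wt) = -ex w := by
  rw [ufac_val hn, map_sub, coeff_one, if_neg hn, coeff_C_mul, coeff_X_pow_self, mul_one, zero_sub]

theorem coeff_G {n : ℕ} (hn : n ≠ 0) (a b : ℤ) :
    coeff n (G n a b : PowerSeries Wt) =
      -((b + 2 * a) • ex (0, 0) + a • ∑ w ∈ roots, ex w) := by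
  have h1 : (⟨G n a b, G_mem hn a b⟩ : H n) =
      ⟨ufac n (0, 0), ufac_mem hn _⟩ ^ (b + 2 * a) *
        ∏ w ∈ roots, (⟨ufac n w, ufac_mem hn w⟩ : H n) ^ a := by
    apply Subtype.ext
    simp [G]
  have h2 := congrArg (fun u => (del n hn u).toAdd) h1
  simp only [map_mul, map_zpow, map_prod, toAdd_mul, toAdd_zpow, toAdd_prod, del_apply] at h2
  rw [h2, coeff_ufac hn, neg_add, smul_neg, Finset.smul_sum, ← Finset.sum_neg_distrib]
  congr 1
  refine Finset.sum_congr rfl fun w _ => ?_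
  rw [coeff_ufac hn, smul_neg]

theorem coeff_mul_H {n : ℕ} (hn : n ≠ 0) (F : PowerSeries Wt) (hF : constantCoeff F = 1)
    {u : (PowerSeries Wt)ˣ} (hu : u ∈ H n) :
    coeff n (F * (u : PowerSeries Wt)) = coeff n F + coeff n (u : PowerSeries Wt) := by
  obtain ⟨f, hf⟩ := mem_H.1 hu
  have hu : (u : PowerSeries Wt) = 1 + X ^ n * f := by rw [← hf]; ring
  have h1 : coeff n (1 : PowerSeries Wt) = 0 := by rw [coeff_one, if_neg hn]
  have h3 : F * (1 + X ^ n * f) = F + X ^ n * (F * f) := by ring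
  have h2 : coeff n (X ^ n * (F * f)) = coeff n (X ^ n * f) := by
    rw [coeff_X_pow_mul', if_pos le_rfl, coeff_X_pow_mul', if_pos le_rfl, Nat.sub_self,
      coeff_zero_eq_constantCoeff_apply, coeff_zero_eq_constantCoeff_apply, map_mul, hF, one_mul]
  rw [hu, h3, map_add, map_add, h2, h1, zero_add]

/-- The product of the factors for `1, …, n`. -/
def Q (n : ℕ) (A B : ℕ → ℤ) : (PowerSeries Wt)ˣ := ∏ j ∈ Finset.Icc 1 n, G j (A j) (B j)

theorem Q_succ (n : ℕ) (A B : ℕ → ℤ) : Q (n + 1) A B = Q n A B * G (n + 1) (A (n + 1)) (B (n + 1)) :=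
  Finset.prod_Icc_succ_top (by omega) _

theorem Q_mem (n : ℕ) (A B : ℕ → ℤ) : Q n A B ∈ H 1 :=
  prod_mem fun j hj => H_mono (Finset.mem_Icc.1 hj).1
    (G_mem (by have := (Finset.mem_Icc.1 hj).1; omega) _ _)

theorem Q_const (n : ℕ) (A B : ℕ → ℤ) : constantCoeff (Q n A B : PowerSeries Wt) = 1 := by
  obtain ⟨f, hf⟩ := mem_H.1 (Q_mem n A B)
  have h1 : (Q n A B : PowerSeries Wt) = 1 + X ^ 1 * f := by rw [← hf]; ring
  rw [h1, map_add, map_one, map_mul, map_pow, constantCoeff_X]; ring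

/-- The coefficients of `t ^ n` of the products. -/
theorem coeff_Q {n N : ℕ} (hn : n < N) (A B : ℕ → ℤ) :
    coeff (n + 1) (Q N A B : PowerSeries Wt) = coeff (n + 1) (Q n A B : PowerSeries Wt) -
      ((B (n + 1) + 2 * A (n + 1)) • ex (0, 0) + A (n + 1) • ∑ w ∈ roots, ex w) := by
  obtain ⟨d, rfl⟩ : ∃ d, N = n + 1 + d := ⟨N - (n + 1), by omega⟩
  induction d with
  | zero =>
    rw [Nat.add_zero, Q_succ, Units.val_mul, coeff_mul_H (by omega) _ (Q_const _ _ _)
      (G_mem (by omega) _ _), coeff_G (by omega)]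
    ring
  | succ d ih =>
    rw [← Nat.add_assoc, Q_succ, Units.val_mul, coeff_mul_H (by omega) _ (Q_const _ _ _)
      (H_mono (by omega : n + 1 ≤ n + 1 + d + 1) (G_mem (by omega) _ _)), ih (by omega)]
    obtain ⟨f, hf⟩ := mem_H.1 (G_mem (n := n + 1 + d + 1) (by omega) (A (n + 1 + d + 1))
      (B (n + 1 + d + 1)))
    have h1 : (G (n + 1 + d + 1) (A (n + 1 + d + 1)) (B (n + 1 + d + 1)) : PowerSeries Wt) =
        1 + X ^ (n + 1 + d + 1) * f := by rw [← hf]; ring
    have h2 : coeff (n + 1) (1 + X ^ (n + 1 + d + 1) * f : PowerSeries Wt) = 0 := by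
      rw [map_add, coeff_one, if_neg (by omega), coeff_X_pow_mul', if_neg (by omega), add_zero]
    rw [h1, h2, add_zero]

/-! ### Multiplicities -/

/-- The product `∏ (1 - e ^ (-α))`. -/
def wden : Wt := (1 - ex (-1, 0)) * (1 - ex (0, -1)) * (1 - ex (-1, -1))

theorem mult_eq (w : ℤ × ℤ) (F : Wt) : mult w F = (F * wden).coeff w := rfl

theorem mult_add (w : ℤ × ℤ) (F F' : Wt) : mult w (F + F') = mult w F + mult w F' := by
  rw [mult_eq, mult_eq, mult_eq, add_mul]; rfl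

/-- The multiplicity as an additive homomorphism. -/
def multHom (w : ℤ × ℤ) : Wt →+ ℤ := AddMonoidHom.mk' (mult w) (mult_add w)

theorem multHom_apply (w : ℤ × ℤ) (F : Wt) : multHom w F = mult w F := rfl

theorem wden_eq : wden = ex (0, 0) - ex (-1, 0) - ex (0, -1) + ex (-2, -1) + ex (-1, -2) -
    ex (-2, -2) := by
  have h0 : (1 : Wt) = ex (0, 0) := rfl
  rw [wden, h0]
  simp only [sub_mul, mul_sub, ex_mul]
  norm_num
  abel

theorem coeff_ex (v w : ℤ × ℤ) : (ex v).coeff w = if v = w then 1 else 0 := by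
  rw [ex, AddMonoidAlgebra.coeff_single, Finsupp.single_apply]

theorem mult_ex (v w : ℤ × ℤ) : mult w (ex v) = (if v = w then 1 else 0) -
    (if v + (-1, 0) = w then 1 else 0) - (if v + (0, -1) = w then 1 else 0) +
    (if v + (-2, -1) = w then 1 else 0) + (if v + (-1, -2) = w then 1 else 0) -
    (if v + (-2, -2) = w then 1 else 0) := by
  rw [mult_eq, wden_eq]
  simp only [mul_sub, mul_add, ex_mul, AddMonoidAlgebra.coeff_sub, AddMonoidAlgebra.coeff_add,
    Finsupp.sub_apply, Finsupp.add_apply, coeff_ex]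
  rw [show v + ((0 : ℤ), (0 : ℤ)) = v from add_zero v]

theorem mult_zero_one : mult (0, 0) (ex (0, 0)) = 1 := by rw [mult_ex]; decide

theorem mult_adj_one : mult (1, 1) (ex (0, 0)) = 0 := by rw [mult_ex]; decide

theorem mult_zero_roots : mult (0, 0) (∑ w ∈ roots, ex w) = -2 := by
  rw [← multHom_apply, map_sum]
  simp only [multHom_apply, mult_ex]
  decide

theorem mult_adj_roots : mult (1, 1) (∑ w ∈ roots, ex w) = 1 := by
  rw [← multHom_apply, map_sum]
  simp only [multHom_apply, mult_ex]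
  decide

/-- The recursion. -/
theorem rec_eq {N : ℕ} {A B : ℕ → ℤ} {D : ℤ}
    (h0 : ∀ n, n < N → mult (0, 0) (coeff (n + 1) (Q N A B : PowerSeries Wt)) = 0)
    (h1 : ∀ n, n < N → mult (1, 1) (coeff (n + 1) (Q N A B : PowerSeries Wt)) =
      if n = 0 then -D else 0) {n : ℕ} (hn : n < N) :
    B (n + 1) = mult (0, 0) (coeff (n + 1) (Q n A B : PowerSeries Wt)) ∧
    A (n + 1) = mult (1, 1) (coeff (n + 1) (Q n A B : PowerSeries Wt)) + if n = 0 then D else 0 := by
  have e0 := h0 n hn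
  have e1 := h1 n hn
  rw [coeff_Q hn, ← multHom_apply, map_sub, map_add, map_zsmul, map_zsmul, multHom_apply,
    multHom_apply, multHom_apply] at e0 e1
  rw [mult_zero_one, mult_zero_roots] at e0
  rw [mult_adj_one, mult_adj_roots] at e1
  simp only [smul_eq_mul] at e0 e1
  constructor
  · linarith
  · split_ifs at e1 ⊢ <;> linarith

/-! ### The tables -/

/-- The rescaled product. -/
def FQ (n : ℕ) (A B : ℕ → ℤ) : PowerSeries Wt :=
  C ((xx - 1) * (yy - 1) * (xx * yy - 1)) * rescale (xx * yy) (Q n A B : PowerSeries Wt)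

theorem wden_mul : (xx * yy) ^ 2 * wden = (xx - 1) * (yy - 1) * (xx * yy - 1) := by
  have h1 : xx * ex (-1, 0) = 1 := by rw [xx, ex_mul]; rfl
  have h2 : yy * ex (0, -1) = 1 := by rw [yy, ex_mul]; rfl
  have h3 : xx * yy * ex (-1, -1) = 1 := by rw [xx, yy, ex_mul, ex_mul]; rfl
  calc (xx * yy) ^ 2 * wden
      = (xx - xx * ex (-1, 0)) * (yy - yy * ex (0, -1)) *
        (xx * yy - xx * yy * ex (-1, -1)) := by rw [wden]; ring
    _ = _ := by rw [h1, h2, h3]

theorem mult_of_table {T : List (List (List ℤ))} {n : ℕ} (hn : n + 1 ≤ 10) {A B : ℕ → ℤ}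
    (hT : Rep T (FQ n A B)) (i : ℕ) :
    mult ((i : ℤ), (i : ℤ)) (coeff (n + 1) (Q n A B : PowerSeries Wt)) =
      ((T.getD (n + 1) []).getD (n + 1 + 2 + i) []).getD (n + 1 + 2 + i) 0 := by
  have h1 := hT (n + 1) hn
  rw [FQ, coeff_C_mul, coeff_rescale, ← wden_mul] at h1
  rw [← sem2_coeff, ← h1]
  have h2 : (xx * yy) ^ 2 * wden * ((xx * yy) ^ (n + 1) * coeff (n + 1)
      (Q n A B : PowerSeries Wt)) = ex (((n + 1 + 2 : ℕ) : ℤ), ((n + 1 + 2 : ℕ) : ℤ)) *
        (coeff (n + 1) (Q n A B : PowerSeries Wt) * wden) := by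
    rw [← xxyy, ← mul_pow]; ring
  rw [h2, ex_coeff, mult_eq]
  congr 1
  ext <;> push_cast <;> simp <;> ring

theorem rescale_ufac {n : ℕ} (hn : n ≠ 0) (w : ℤ × ℤ) (p q : ℕ) (hp : (p : ℤ) = n + w.1)
    (hq : (q : ℤ) = n + w.2) :
    rescale (xx * yy) (ufac n w : PowerSeries Wt) = 1 - C (xx ^ p * yy ^ q) * X ^ n := by
  rw [ufac_val hn, map_sub, map_one, map_mul, map_pow, rescale_X]
  have h1 : rescale (xx * yy) (C (ex w) : PowerSeries Wt) = C (ex w) := by
    ext i
    rw [coeff_rescale, coeff_C]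
    split_ifs with h
    · rw [h, pow_zero, one_mul]
    · rw [mul_zero]
  rw [h1, mul_pow, ← map_pow, ← mul_assoc, ← map_mul]
  congr 3
  rw [mul_pow, xxyy, xxyy, ex_mul]
  congr 1
  ext <;> simp <;> linarith

theorem rep_step {T : List (List (List ℤ))} {n : ℕ} {A B : ℕ → ℤ} (hT : Rep T (FQ n A B))
    (a b : ℕ) (ha : A (n + 1) = a) (hb : B (n + 1) = b) :
    Rep (stepT (n + 1) a b T) (FQ (n + 1) A B) := by
  have hn : n + 1 ≠ 0 := by omega
  have h1 : FQ (n + 1) A B =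
      (1 - C (xx ^ (n + 1 - 1) * yy ^ (n + 1 - 1)) * X ^ (n + 1)) ^ a *
      ((1 - C (xx ^ (n + 1) * yy ^ (n + 1 - 1)) * X ^ (n + 1)) ^ a *
      ((1 - C (xx ^ (n + 1 - 1) * yy ^ (n + 1)) * X ^ (n + 1)) ^ a *
      ((1 - C (xx ^ (n + 1 + 1) * yy ^ (n + 1 + 1)) * X ^ (n + 1)) ^ a *
      ((1 - C (xx ^ (n + 1) * yy ^ (n + 1 + 1)) * X ^ (n + 1)) ^ a *
      ((1 - C (xx ^ (n + 1 + 1) * yy ^ (n + 1)) * X ^ (n + 1)) ^ a *
      ((1 - C (xx ^ (n + 1) * yy ^ (n + 1)) * X ^ (n + 1)) ^ (b + 2 * a) * FQ n A B)))))) := by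
    rw [← rescale_ufac hn (-1, -1) _ _ (by push_cast; simp) (by push_cast; simp),
      ← rescale_ufac hn (0, -1) _ _ (by push_cast; simp) (by push_cast; simp),
      ← rescale_ufac hn (-1, 0) _ _ (by push_cast; simp) (by push_cast; simp),
      ← rescale_ufac hn (1, 1) _ _ (by push_cast; simp) (by push_cast; simp),
      ← rescale_ufac hn (0, 1) _ _ (by push_cast; simp) (by push_cast; simp),
      ← rescale_ufac hn (1, 0) _ _ (by push_cast; simp) (by push_cast; simp),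
      ← rescale_ufac hn (0, 0) _ _ (by push_cast; simp) (by push_cast; simp)]
    rw [FQ, FQ, Q_succ, Units.val_mul, map_mul, ha, hb, G]
    have h2 : ((b : ℤ) + 2 * (a : ℤ)) = ((b + 2 * a : ℕ) : ℤ) := by push_cast; ring
    rw [h2]
    simp only [zpow_natCast, Units.val_mul, Units.coe_prod, Units.val_pow_eq_pow_val, map_mul,
      map_prod, map_pow]
    have h3 : ∀ f : ℤ × ℤ → PowerSeries Wt, ∏ w ∈ roots, f w =
        f (1, 0) * (f (0, 1) * (f (1, 1) * (f (-1, 0) * (f (0, -1) * f (-1, -1))))) := by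
      intro f
      rw [roots, Finset.prod_insert (by decide), Finset.prod_insert (by decide),
        Finset.prod_insert (by decide), Finset.prod_insert (by decide),
        Finset.prod_insert (by decide), Finset.prod_singleton]
    rw [h3]
    ring
  rw [h1, stepT]
  have h0 : 0 < n + 1 := by omega
  exact rep_mulF h0 (rep_mulF h0 (rep_mulF h0 (rep_mulF h0 (rep_mulF h0 (rep_mulF h0
    (rep_mulF h0 hT))))))

theorem rep_T0 (A B : ℕ → ℤ) : Rep T0 (FQ 0 A B) := by
  intro d _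
  have h1 : (Q 0 A B : PowerSeries Wt) = 1 := by simp [Q]
  rw [FQ, h1, map_one, mul_one, coeff_C, T0]
  cases d with
  | zero =>
    rw [if_pos rfl]
    simp only [List.getD_cons_zero, sem2, sem1, AddMonoidAlgebra.single_zero]
    have h2 : (AddMonoidAlgebra.single (0 : ℤ × ℤ) (-1 : ℤ) : Wt) = -1 := by
      rw [AddMonoidAlgebra.single_neg]; rfl
    have h3 : (AddMonoidAlgebra.single (0 : ℤ × ℤ) (1 : ℤ) : Wt) = 1 := rfl
    rw [h2, h3]
    ring
  | succ d =>
    rw [if_neg (by omega)]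
    simp [sem2]

/-- The values of the recursion for three generators. -/
theorem values {A B : ℕ → ℤ}
    (h0 : ∀ n, n < 10 → mult (0, 0) (coeff (n + 1) (Q 10 A B : PowerSeries Wt)) = 0)
    (h1 : ∀ n, n < 10 → mult (1, 1) (coeff (n + 1) (Q 10 A B : PowerSeries Wt)) =
      if n = 0 then -3 else 0) :
    ∀ (l : List (ℕ × ℕ)) (n : ℕ) (T : List (List (List ℤ))), n + l.length ≤ 10 →
      Rep T (FQ n A B) → run (n + 1) l T = true →
      ∀ i (hi : i < l.length), A (n + 1 + i) = (l[i]).1 ∧ B (n + 1 + i) = (l[i]).2 := by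
  intro l
  induction l with
  | nil => intro n T _ _ _ i hi; simp at hi
  | cons ab l ih =>
    obtain ⟨a, b⟩ := ab
    intro n T hl hT hrun i hi
    rw [List.length_cons] at hl
    rw [run, Bool.and_eq_true, Bool.and_eq_true, beq_iff_eq, beq_iff_eq] at hrun
    obtain ⟨⟨hr1, hr2⟩, hr3⟩ := hrun
    have hn : n < 10 := by omega
    obtain ⟨e1, e2⟩ := rec_eq h0 h1 hn
    have t1 := mult_of_table (by omega) hT 0
    have t2 := mult_of_table (by omega) hT 1
    simp only [Nat.cast_zero, Nat.cast_one, Nat.add_zero] at t1 t2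
    have hb : B (n + 1) = b := by rw [e1, t1]; exact hr1
    have ha : A (n + 1) = a := by
      rw [e2, t2, ← hr2]
      congr 1
      by_cases h : n = 0 <;> simp [h]
    cases i with
    | zero => exact ⟨ha, hb⟩
    | succ i =>
      have h2 := ih (n + 1) (stepT (n + 1) a b T) (by omega) (rep_step hT a b ha hb) hr3 i
        (by simpa using hi)
      rw [show n + 1 + (i + 1) = n + 1 + 1 + i by ring]
      exact h2

theorem run_true : run 1 nums T0 = true := by decide +kernel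

theorem A_ten {A B : ℕ → ℤ}
    (h0 : ∀ n, n < 10 → mult (0, 0) (coeff (n + 1) (Q 10 A B : PowerSeries Wt)) = 0)
    (h1 : ∀ n, n < 10 → mult (1, 1) (coeff (n + 1) (Q 10 A B : PowerSeries Wt)) =
      if n = 0 then -3 else 0) : A 10 = 56961 :=
  (values h0 h1 nums 0 T0 (by decide) (rep_T0 A B) run_true 9 (by decide)).1

end Pool.Agent.R929.Shang

end
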