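import Mathlib

/-!
# Shang's character formula for free alternative algebras: definitions

The ground field is `k`, and `V = k ^ D` with the basis `x_0, …, x_(D-1)`.

The class of a polynomial representation of `GL(V)` in the Grothendieck ring is represented by its
character, a symmetric polynomial in `D` variables (this is an isomorphism of the Grothendieck ring
with the ring of symmetric polynomials); the class of a graded module with finite-dimensional
pieces is a power series in `D` variables. The classes in `R ⊗ K(PSL_3)` are represented by power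
series with coefficients in the group ring of the root lattice of `sl_3`.
-/

set_option autoImplicit false

noncomputable section

open MvPowerSeries

namespace Pool.Agent.R929.Shang

/-! ## The free alternative algebra -/

/-- The free nonassociative algebra (without unit) generated by `V = k ^ D`. -/
abbrev FreeNA (k : Type) [Field k] (D : ℕ) : Type := FreeNonUnitalNonAssocAlgebra k (Fin D)

/-- `I` is a two-sided ideal of the free nonassociative algebra that contains all the alternators
`x (x y) - (x x) y` and `(y x) x - y (x x)`. -/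
def IsAlternativeIdeal (k : Type) [Field k] (D : ℕ) (I : Submodule k (FreeNA k D)) : Prop :=
  (∀ x y : FreeNA k D, x * (x * y) - (x * x) * y ∈ I ∧ (y * x) * x - y * (x * x) ∈ I) ∧
    ∀ x ∈ I, ∀ y : FreeNA k D, x * y ∈ I ∧ y * x ∈ I

/-- The smallest two-sided ideal that contains all the alternators. -/
def altIdeal (k : Type) [Field k] (D : ℕ) : Submodule k (FreeNA k D) :=
  sInf {I | IsAlternativeIdeal k D I}

/-- `Alt(V)`, the free alternative algebra generated by `V = k ^ D` (as a vector space). -/
abbrev Alt (k : Type) [Field k] (D : ℕ) : Type := FreeNA k D ⧸ altIdeal k D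

/-- The multidegree of a nonassociative monomial: how often the generators occur in it. -/
def content {D : ℕ} : FreeMagma (Fin D) → (Fin D →₀ ℕ)
  | FreeMagma.of i => Finsupp.single i 1
  | FreeMagma.mul u w => content u + content w

/-- The component of multidegree `m` of `Alt(V)` (the weight space of `Alt(V)`, for the diagonal
matrices in `GL(V)`): it is spanned by the monomials of multidegree `m`. -/
def altPiece (k : Type) [Field k] (D : ℕ) (m : Fin D →₀ ℕ) : Submodule k (Alt k D) :=
  Submodule.span k {z | ∃ w : FreeMagma (Fin D), content w = m ∧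
    z = (altIdeal k D).mkQ (MonoidAlgebra.single w 1)}

/-- The class `[Alt(V)]`: the coefficient of `x ^ m` is the dimension of the component of
multidegree `m`. -/
def altClass (k : Type) [Field k] (D : ℕ) : MvPowerSeries (Fin D) ℤ :=
  fun m => (Module.finrank k (altPiece k D m) : ℤ)

/-! ## The ring `R ⊗ K(PSL_3)` -/

/-- The group ring of the root lattice of `sl_3`. The weight `i α₁ + j α₂` is `(i, j)`. -/
abbrev Wt : Type := AddMonoidAlgebra ℤ (ℤ × ℤ)

/-- The element `e ^ w` of the group ring. -/
abbrev ex (w : ℤ × ℤ) : Wt := AddMonoidAlgebra.single w 1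

/-- The roots of `sl_3`. -/
def roots : Finset (ℤ × ℤ) := {(1, 0), (0, 1), (1, 1), (-1, 0), (0, -1), (-1, -1)}

/-- The multiplicity of the irreducible module with the highest weight `w` in the (virtual) module
with the character `X`. By Weyl's character formula it is the coefficient of `e ^ w` in the product of
`X` with `∏ (1 - e ^ (-α))`, `α` positive. -/
def mult (w : ℤ × ℤ) (X : Wt) : ℤ :=
  (X * ((1 - ex (-1, 0)) * (1 - ex (0, -1)) * (1 - ex (-1, -1)))).coeff w

/-- The series `1 - x ^ m e ^ w` (for `m ≠ 0`), as an invertible power series over the group ring: the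
value of `λ` on the character `x ^ m e ^ w`. -/
def fac {D : ℕ} (m : Fin D →₀ ℕ) (w : ℤ × ℤ) : (MvPowerSeries (Fin D) Wt)ˣ :=
  open Classical in
  if h : IsUnit (1 - monomial m (ex w) : MvPowerSeries (Fin D) Wt) then h.unit else 1

/-- The multidegrees of total degree `1, …, N`. -/
def degs (D N : ℕ) : Finset (Fin D →₀ ℕ) :=
  (Finset.Icc 1 N).biUnion fun n => Finset.finsuppAntidiag Finset.univ n

/-- The terms of degree at most `N` of `Φ = λ (a [L(α₁ + α₂)] + b [L(0)])` are those of the product
of the values of `λ` on the terms of degree at most `N` of `a [L(α₁ + α₂)] + b [L(0)]`; the character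
of `L(α₁ + α₂)` is `2 + ∑ e ^ α`, `α` in the set of the roots. -/
def Phi {D : ℕ} (N : ℕ) (a b : MvPowerSeries (Fin D) ℤ) : MvPowerSeries (Fin D) Wt :=
  ((∏ m ∈ degs D N, (fac m 0 ^ (coeff m b + 2 * coeff m a) * ∏ w ∈ roots, fac m w ^ coeff m a) :
    (MvPowerSeries (Fin D) Wt)ˣ) : MvPowerSeries (Fin D) Wt)

/-- The elements `a`, `b` of the augmentation ideal satisfy `[Φ : [L(0)]] = [k]` and
`[Φ : [L(α₁ + α₂)]] = -[V]`. -/
structure IsSolution {D : ℕ} (a b : MvPowerSeries (Fin D) ℤ) : Prop where
  zero_left : constantCoeff a = 0
  zero_right : constantCoeff b = 0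
  trivial : ∀ (N : ℕ) (m : Fin D →₀ ℕ), m.degree ≤ N →
    mult (0, 0) (coeff m (Phi N a b)) = coeff m (1 : MvPowerSeries (Fin D) ℤ)
  adjoint : ∀ (N : ℕ) (m : Fin D →₀ ℕ), m.degree ≤ N →
    mult (1, 1) (coeff m (Phi N a b)) = -coeff m (∑ i, X i : MvPowerSeries (Fin D) ℤ)

end Pool.Agent.R929.Shang

end
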