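import Pool.Agent.R929.Shang.Spec

/-!
# Existence and uniqueness of the elements `a(V)`, `b(V)`
-/

set_option autoImplicit false

noncomputable section

namespace Pool.Agent.R929.Shang

open Finset MvPowerSeries

variable {D : ℕ}

/-- The series without terms of degree less than `n`. -/
def J (D n : ℕ) : Ideal (MvPowerSeries (Fin D) Wt) where
  carrier := {F | ∀ m : Fin D →₀ ℕ, m.degree < n → coeff m F = 0}
  add_mem' := by
    intro F F' h h' m hm
    rw [map_add, h m hm, h' m hm, add_zero]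
  zero_mem' := fun m _ => map_zero _
  smul_mem' := by
    classical
    intro c F h m hm
    rw [smul_eq_mul, coeff_mul]
    refine Finset.sum_eq_zero fun p hp => ?_
    rw [HasAntidiagonal.mem_antidiagonal] at hp
    have h1 := congrArg Finsupp.degree hp
    rw [map_add] at h1
    rw [h p.2 (by omega), mul_zero]

theorem mem_J {n : ℕ} {F : MvPowerSeries (Fin D) Wt} :
    F ∈ J D n ↔ ∀ m : Fin D →₀ ℕ, m.degree < n → coeff m F = 0 := Iff.rfl

theorem J_mono {i j : ℕ} (h : i ≤ j) : J D j ≤ J D i := fun F hF m hm => hF m (by omega)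

theorem mul_mem_J {i j : ℕ} {F F' : MvPowerSeries (Fin D) Wt} (h : F ∈ J D i) (h' : F' ∈ J D j) :
    F * F' ∈ J D (i + j) := by
  classical
  intro m hm
  rw [coeff_mul]
  refine Finset.sum_eq_zero fun p hp => ?_
  rw [HasAntidiagonal.mem_antidiagonal] at hp
  have h1 := congrArg Finsupp.degree hp
  rw [map_add] at h1
  by_cases h2 : p.1.degree < i
  · rw [h p.1 h2, zero_mul]
  · rw [h' p.2 (by omega), mul_zero]

/-- The units which are `1` modulo terms of degree `≥ n`. -/
def HJ (D n : ℕ) : Subgroup (MvPowerSeries (Fin D) Wt)ˣ :=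
  (Units.map (Ideal.Quotient.mk (J D n)).toMonoidHom).ker

theorem mem_HJ {n : ℕ} {u : (MvPowerSeries (Fin D) Wt)ˣ} :
    u ∈ HJ D n ↔ (u : MvPowerSeries (Fin D) Wt) - 1 ∈ J D n := by
  rw [HJ, MonoidHom.mem_ker, Units.ext_iff, Units.coe_map, Units.val_one]
  show Ideal.Quotient.mk _ (u : MvPowerSeries (Fin D) Wt) = 1 ↔ _
  rw [← map_one (Ideal.Quotient.mk _), Ideal.Quotient.eq]

theorem HJ_mono {n m : ℕ} (h : n ≤ m) : HJ D m ≤ HJ D n := fun _ hu =>
  mem_HJ.2 (J_mono h (mem_HJ.1 hu))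

theorem fac_mem {m : Fin D →₀ ℕ} (hm : m ≠ 0) (w : ℤ × ℤ) : fac m w ∈ HJ D m.degree := by
  classical
  rw [mem_HJ, fac_val hm]
  intro m' hm'
  rw [show (1 - monomial m (ex w) : MvPowerSeries (Fin D) Wt) - 1 = -monomial m (ex w) by ring,
    map_neg, coeff_monomial, if_neg, neg_zero]
  rintro rfl
  omega

/-- The coefficient of `x ^ m` is additive on the units that are `1` modulo terms of degree
`≥ |m|`. -/
def delJ (n : ℕ) (hn : n ≠ 0) (m : Fin D →₀ ℕ) (hm : m.degree = n) : HJ D n →* Multiplicative Wt :=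
  MonoidHom.mk' (fun u => Multiplicative.ofAdd (coeff m (u.1 : MvPowerSeries (Fin D) Wt))) (by
    classical
    intro u v
    have hu := mem_HJ.1 u.2
    have hv := mem_HJ.1 v.2
    rw [← ofAdd_add]
    congr 1
    show coeff m ((u.1 : MvPowerSeries (Fin D) Wt) * (v.1 : MvPowerSeries (Fin D) Wt)) = _
    have h1 : (u.1 : MvPowerSeries (Fin D) Wt) * (v.1 : MvPowerSeries (Fin D) Wt) =
        u.1 + v.1 - 1 + (u.1 - 1) * (v.1 - 1) := by ring
    have h2 := mul_mem_J hu hv m (by omega)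
    have h3 : coeff m (1 : MvPowerSeries (Fin D) Wt) = 0 := by
      rw [coeff_one, if_neg]
      rintro rfl
      rw [map_zero] at hm
      omega
    rw [h1, map_add, h2, map_sub, map_add, h3]; ring)

theorem delJ_apply {n : ℕ} (hn : n ≠ 0) {m : Fin D →₀ ℕ} (hm : m.degree = n) (u : HJ D n) :
    (delJ n hn m hm u).toAdd = coeff m (u.1 : MvPowerSeries (Fin D) Wt) := rfl

theorem ne_zero_of_degree {n : ℕ} (hn : n ≠ 0) {m : Fin D →₀ ℕ} (hm : m.degree = n) : m ≠ 0 := by
  rintro rfl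
  rw [map_zero] at hm
  omega

theorem fac_mem' {n : ℕ} (hn : n ≠ 0) {m : Fin D →₀ ℕ} (hm : m.degree = n) (w : ℤ × ℤ) :
    fac m w ∈ HJ D n := by
  subst hm
  exact fac_mem (ne_zero_of_degree hn rfl) w

/-- The factor for the multidegree `m`. -/
def GJ (m : Fin D →₀ ℕ) (a b : ℤ) : (MvPowerSeries (Fin D) Wt)ˣ :=
  fac m 0 ^ (b + 2 * a) * ∏ w ∈ roots, fac m w ^ a

theorem GJ_mem {n : ℕ} (hn : n ≠ 0) {m : Fin D →₀ ℕ} (hm : m.degree = n) (a b : ℤ) :
    GJ m a b ∈ HJ D n :=
  mul_mem (zpow_mem (fac_mem' hn hm _) _) (prod_mem fun w _ => zpow_mem (fac_mem' hn hm w) _)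

theorem coeff_fac {n : ℕ} (hn : n ≠ 0) {m m' : Fin D →₀ ℕ} (hm : m.degree = n)
    (hm' : m'.degree = n) (w : ℤ × ℤ) : coeff m (fac m' w : MvPowerSeries (Fin D) Wt) =
      if m = m' then -ex w else 0 := by
  classical
  rw [fac_val (ne_zero_of_degree hn hm'), map_sub, coeff_one, if_neg (ne_zero_of_degree hn hm),
    coeff_monomial]
  split_ifs <;> simp

theorem coeff_GJ {n : ℕ} (hn : n ≠ 0) {m m' : Fin D →₀ ℕ} (hm : m.degree = n)
    (hm' : m'.degree = n) (a b : ℤ) :
    coeff m (GJ m' a b : MvPowerSeries (Fin D) Wt) =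
      if m = m' then -((b + 2 * a) • ex (0, 0) + a • ∑ w ∈ roots, ex w) else 0 := by
  have h1 : (⟨GJ m' a b, GJ_mem hn hm' a b⟩ : HJ D n) =
      ⟨fac m' 0, fac_mem' hn hm' _⟩ ^ (b + 2 * a) *
        ∏ w ∈ roots, (⟨fac m' w, fac_mem' hn hm' w⟩ : HJ D n) ^ a := by
    apply Subtype.ext
    simp [GJ]
  have h2 := congrArg (fun u => (delJ n hn m hm u).toAdd) h1
  simp only [map_mul, map_zpow, map_prod, toAdd_mul, toAdd_zpow, toAdd_prod, delJ_apply] at h2
  rw [h2]
  simp only [coeff_fac hn hm hm']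
  by_cases h : m = m'
  · simp only [if_pos h]
    rw [neg_add, smul_neg, Finset.smul_sum, ← Finset.sum_neg_distrib]
    congr 1
    exact Finset.sum_congr rfl fun w _ => by rw [smul_neg]
  · simp only [if_neg h]
    simp

/-- The multidegrees of degree `n`. -/
def deg (D n : ℕ) : Finset (Fin D →₀ ℕ) := Finset.finsuppAntidiag Finset.univ n

theorem mem_deg {n : ℕ} {m : Fin D →₀ ℕ} : m ∈ deg D n ↔ m.degree = n := by
  rw [deg, Finset.mem_finsuppAntidiag, Finsupp.degree_apply]
  constructor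
  · rintro ⟨h1, -⟩
    rw [← h1]
    exact Finset.sum_subset (Finset.subset_univ _) fun i _ hi => Finsupp.notMem_support_iff.1 hi
  · intro h1
    refine ⟨?_, Finset.subset_univ _⟩
    rw [← h1]
    exact (Finset.sum_subset (Finset.subset_univ _)
      fun i _ hi => Finsupp.notMem_support_iff.1 hi).symm

/-- The product of the factors of degree `n`. -/
def GD (n : ℕ) (a b : MvPowerSeries (Fin D) ℤ) : (MvPowerSeries (Fin D) Wt)ˣ :=
  ∏ m ∈ deg D n, GJ m (coeff m a) (coeff m b)

theorem GD_mem {n : ℕ} (hn : n ≠ 0) (a b : MvPowerSeries (Fin D) ℤ) : GD n a b ∈ HJ D n :=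
  prod_mem fun _ hm => GJ_mem hn (mem_deg.1 hm) _ _

theorem coeff_GD {n : ℕ} (hn : n ≠ 0) {m : Fin D →₀ ℕ} (hm : m.degree = n)
    (a b : MvPowerSeries (Fin D) ℤ) : coeff m (GD n a b : MvPowerSeries (Fin D) Wt) =
      -((coeff m b + 2 * coeff m a) • ex (0, 0) + coeff m a • ∑ w ∈ roots, ex w) := by
  classical
  have h1 : (⟨GD n a b, GD_mem hn a b⟩ : HJ D n) = ∏ m' ∈ (deg D n).attach,
      (⟨GJ m'.1 (coeff m'.1 a) (coeff m'.1 b), GJ_mem hn (mem_deg.1 m'.2) _ _⟩ : HJ D n) := by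
    apply Subtype.ext
    rw [Subgroup.val_finsetProd]
    show ∏ m ∈ deg D n, GJ m (coeff m a) (coeff m b) = _
    rw [← Finset.prod_attach]
  have h2 := congrArg (fun u => (delJ n hn m hm u).toAdd) h1
  simp only [map_prod, toAdd_prod, delJ_apply] at h2
  rw [h2]
  have h3 : ∀ m' : {x // x ∈ deg D n}, coeff m (GJ m'.1 (coeff m'.1 a) (coeff m'.1 b) :
      MvPowerSeries (Fin D) Wt) = if m = m'.1 then
        -((coeff m b + 2 * coeff m a) • ex (0, 0) + coeff m a • ∑ w ∈ roots, ex w) else 0 := by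
    intro m'
    rw [coeff_GJ hn hm (mem_deg.1 m'.2)]
    by_cases h : m = m'.1
    · rw [if_pos h, if_pos h, ← h]
    · rw [if_neg h, if_neg h]
  simp only [h3]
  rw [Finset.sum_attach (deg D n) (fun m' => if m = m' then
    -((coeff m b + 2 * coeff m a) • ex (0, 0) + coeff m a • ∑ w ∈ roots, ex w) else 0),
    Finset.sum_ite_eq, if_pos (mem_deg.2 hm)]

/-- The product as a unit. -/
def PhiU (N : ℕ) (a b : MvPowerSeries (Fin D) ℤ) : (MvPowerSeries (Fin D) Wt)ˣ :=
  ∏ m ∈ degs D N, GJ m (coeff m a) (coeff m b)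

theorem PhiU_val (N : ℕ) (a b : MvPowerSeries (Fin D) ℤ) :
    (PhiU N a b : MvPowerSeries (Fin D) Wt) = Phi N a b := rfl

theorem degs_succ (N : ℕ) : degs D (N + 1) = degs D N ∪ deg D (N + 1) := by
  ext m
  rw [Finset.mem_union, mem_degs, mem_degs, mem_deg]
  omega

theorem PhiU_succ (N : ℕ) (a b : MvPowerSeries (Fin D) ℤ) :
    PhiU (N + 1) a b = PhiU N a b * GD (N + 1) a b := by
  rw [PhiU, degs_succ, Finset.prod_union]
  · rfl
  · rw [Finset.disjoint_left]
    intro m h1 h2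
    rw [mem_degs] at h1
    rw [mem_deg] at h2
    omega

theorem PhiU_mem (N : ℕ) (a b : MvPowerSeries (Fin D) ℤ) : PhiU N a b ∈ HJ D 1 := by
  refine prod_mem fun m hm => ?_
  rw [mem_degs] at hm
  exact HJ_mono hm.1 (GJ_mem (by omega) rfl _ _)

theorem coeff_Phi_succ_lt (N : ℕ) (a b : MvPowerSeries (Fin D) ℤ) {m : Fin D →₀ ℕ}
    (hm : m.degree ≤ N) : coeff m (Phi (N + 1) a b) = coeff m (Phi N a b) := by
  rw [← PhiU_val, ← PhiU_val, PhiU_succ, Units.val_mul]
  have h1 := mem_HJ.1 (GD_mem (n := N + 1) (by omega) a b)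
  have h2 := (J D (N + 1)).mul_mem_left (PhiU N a b : MvPowerSeries (Fin D) Wt) h1
  have h3 := h2 m (by omega)
  rw [mul_sub, mul_one, map_sub, sub_eq_zero] at h3
  exact h3

theorem coeff_Phi_le {N : ℕ} (a b : MvPowerSeries (Fin D) ℤ) {m : Fin D →₀ ℕ}
    (hm : m.degree ≤ N) : coeff m (Phi N a b) = coeff m (Phi m.degree a b) := by
  obtain ⟨d, rfl⟩ : ∃ d, N = m.degree + d := ⟨N - m.degree, by omega⟩
  induction d with
  | zero => rfl
  | succ d ih => rw [← Nat.add_assoc, coeff_Phi_succ_lt _ _ _ (by omega), ih (by omega)]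

theorem coeff_Phi_succ (n : ℕ) (a b : MvPowerSeries (Fin D) ℤ) {m : Fin D →₀ ℕ}
    (hm : m.degree = n + 1) : coeff m (Phi (n + 1) a b) = coeff m (Phi n a b) -
      ((coeff m b + 2 * coeff m a) • ex (0, 0) + coeff m a • ∑ w ∈ roots, ex w) := by
  classical
  rw [← PhiU_val, ← PhiU_val, PhiU_succ, Units.val_mul]
  have h1 := mem_HJ.1 (GD_mem (n := n + 1) (by omega) a b)
  have h2 := mem_HJ.1 (PhiU_mem n a b)
  have h3 := mul_mem_J h2 h1 m (by omega)
  have h4 : (PhiU n a b : MvPowerSeries (Fin D) Wt) * (GD (n + 1) a b : MvPowerSeries (Fin D) Wt) =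
      PhiU n a b + (GD (n + 1) a b : MvPowerSeries (Fin D) Wt) - 1 +
        ((PhiU n a b : MvPowerSeries (Fin D) Wt) - 1) *
          ((GD (n + 1) a b : MvPowerSeries (Fin D) Wt) - 1) := by ring
  have h5 : coeff m (1 : MvPowerSeries (Fin D) Wt) = 0 := by
    rw [coeff_one, if_neg (ne_zero_of_degree (by omega) hm)]
  rw [h4, map_add, h3, map_sub, map_add, h5, coeff_GD (by omega) hm]
  ring

theorem mult_Phi_succ (n : ℕ) (a b : MvPowerSeries (Fin D) ℤ) {m : Fin D →₀ ℕ}
    (hm : m.degree = n + 1) :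
    mult (0, 0) (coeff m (Phi (n + 1) a b)) = mult (0, 0) (coeff m (Phi n a b)) - coeff m b ∧
    mult (1, 1) (coeff m (Phi (n + 1) a b)) = mult (1, 1) (coeff m (Phi n a b)) - coeff m a := by
  rw [coeff_Phi_succ n a b hm]
  constructor
  · rw [← multHom_apply, map_sub, map_add, map_zsmul, map_zsmul]
    simp only [multHom_apply, mult_zero_one, mult_zero_roots, smul_eq_mul]
    ring
  · rw [← multHom_apply, map_sub, map_add, map_zsmul, map_zsmul]
    simp only [multHom_apply, mult_adj_one, mult_adj_roots, smul_eq_mul]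
    ring

theorem Phi_congr {N : ℕ} {a b a' b' : MvPowerSeries (Fin D) ℤ}
    (h : ∀ m : Fin D →₀ ℕ, m.degree ≤ N → coeff m a = coeff m a' ∧ coeff m b = coeff m b') :
    Phi N a b = Phi N a' b' := by
  have h1 : PhiU N a b = PhiU N a' b' := by
    refine Finset.prod_congr rfl fun m hm => ?_
    rw [mem_degs] at hm
    rw [(h m hm.2).1, (h m hm.2).2]
  rw [← PhiU_val, ← PhiU_val, h1]

theorem Phi_zero (a b : MvPowerSeries (Fin D) ℤ) : Phi 0 a b = 1 := by
  have h1 : degs D 0 = ∅ := by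
    ext m
    rw [mem_degs]
    simp only [Finset.notMem_empty, iff_false]
    omega
  rw [← PhiU_val, PhiU, h1, Finset.prod_empty, Units.val_one]

/-- The recursion. -/
def sol (D : ℕ) : ℕ → MvPowerSeries (Fin D) ℤ × MvPowerSeries (Fin D) ℤ
  | 0 => (0, 0)
  | n + 1 =>
    (fun m => if m.degree = n + 1 then mult (1, 1) (coeff m (Phi n (sol D n).1 (sol D n).2)) +
        coeff m (∑ i, X i : MvPowerSeries (Fin D) ℤ) else (sol D n).1 m,
      fun m => if m.degree = n + 1 then mult (0, 0) (coeff m (Phi n (sol D n).1 (sol D n).2)) else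
        (sol D n).2 m)

/-- The element `a(V)`. -/
def aV (D : ℕ) : MvPowerSeries (Fin D) ℤ := fun m => (sol D m.degree).1 m

/-- The element `b(V)`. -/
def bV (D : ℕ) : MvPowerSeries (Fin D) ℤ := fun m => (sol D m.degree).2 m

theorem sol_stable (n d : ℕ) (m : Fin D →₀ ℕ) (hm : m.degree ≤ n) :
    (sol D (n + d)).1 m = (sol D n).1 m ∧ (sol D (n + d)).2 m = (sol D n).2 m := by
  induction d with
  | zero => exact ⟨rfl, rfl⟩
  | succ d ih =>
    have h1 : m.degree ≠ n + d + 1 := by omega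
    constructor
    · show (if m.degree = n + d + 1 then _ else (sol D (n + d)).1 m) = _
      rw [if_neg h1, ih.1]
    · show (if m.degree = n + d + 1 then _ else (sol D (n + d)).2 m) = _
      rw [if_neg h1, ih.2]

theorem sol_eq (n : ℕ) (m : Fin D →₀ ℕ) (hm : m.degree ≤ n) :
    coeff m (aV D) = coeff m (sol D n).1 ∧ coeff m (bV D) = coeff m (sol D n).2 := by
  obtain ⟨d, rfl⟩ : ∃ d, n = m.degree + d := ⟨n - m.degree, by omega⟩
  have h1 := sol_stable m.degree d m le_rfl
  exact ⟨h1.1.symm, h1.2.symm⟩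

theorem isSolution_aV : IsSolution (aV D) (bV D) := by
  classical
  have key : ∀ (n : ℕ) (m : Fin D →₀ ℕ), m.degree = n + 1 →
      mult (0, 0) (coeff m (Phi n (aV D) (bV D))) = coeff m (bV D) ∧
      mult (1, 1) (coeff m (Phi n (aV D) (bV D))) + coeff m (∑ i, X i : MvPowerSeries (Fin D) ℤ) =
        coeff m (aV D) := by
    intro n m hm
    rw [Phi_congr (fun m' hm' => sol_eq n m' hm'), (sol_eq (n + 1) m hm.le).1,
      (sol_eq (n + 1) m hm.le).2]
    constructor
    · symm
      show (if m.degree = n + 1 then _ else (sol D n).2 m) = _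
      rw [if_pos hm]
    · symm
      show (if m.degree = n + 1 then _ else (sol D n).1 m) = _
      rw [if_pos hm]
  refine ⟨?_, ?_, ?_, ?_⟩
  · show (sol D (0 : Fin D →₀ ℕ).degree).1 0 = 0
    rw [map_zero]; rfl
  · show (sol D (0 : Fin D →₀ ℕ).degree).2 0 = 0
    rw [map_zero]; rfl
  · intro N m hm
    rw [coeff_Phi_le _ _ hm]
    rcases Nat.eq_zero_or_pos m.degree with h | h
    · rw [h, Phi_zero]
      obtain rfl := (Finsupp.degree_eq_zero_iff m).1 h
      rw [coeff_zero_one, coeff_zero_one]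
      exact mult_zero_one
    · obtain ⟨n, hn⟩ : ∃ n, m.degree = n + 1 := ⟨m.degree - 1, by omega⟩
      rw [hn, (mult_Phi_succ n _ _ hn).1, (key n m hn).1, sub_self, coeff_one,
        if_neg (ne_zero_of_degree (by omega) hn)]
  · intro N m hm
    rw [coeff_Phi_le _ _ hm]
    rcases Nat.eq_zero_or_pos m.degree with h | h
    · rw [h, Phi_zero]
      obtain rfl := (Finsupp.degree_eq_zero_iff m).1 h
      rw [coeff_zero_one]
      simp only [map_sum, coeff_zero_X, Finset.sum_const_zero, neg_zero]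
      exact mult_adj_one
    · obtain ⟨n, hn⟩ : ∃ n, m.degree = n + 1 := ⟨m.degree - 1, by omega⟩
      rw [hn, (mult_Phi_succ n _ _ hn).2, ← (key n m hn).2]
      ring

theorem isSolution_unique {a b : MvPowerSeries (Fin D) ℤ} (h : IsSolution a b) :
    a = aV D ∧ b = bV D := by
  classical
  have h' := isSolution_aV (D := D)
  have key : ∀ (n : ℕ) (m : Fin D →₀ ℕ), m.degree ≤ n →
      coeff m a = coeff m (aV D) ∧ coeff m b = coeff m (bV D) := by
    intro n
    induction n with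
    | zero =>
      intro m hm
      obtain rfl := (Finsupp.degree_eq_zero_iff m).1 (by omega)
      rw [coeff_zero_eq_constantCoeff_apply, coeff_zero_eq_constantCoeff_apply,
        coeff_zero_eq_constantCoeff_apply, coeff_zero_eq_constantCoeff_apply, h.zero_left,
        h.zero_right, h'.zero_left, h'.zero_right]
      exact ⟨rfl, rfl⟩
    | succ n ih =>
      intro m hm
      by_cases h1 : m.degree ≤ n
      · exact ih m h1
      · have h2 : m.degree = n + 1 := by omega
        have e1 := h.trivial (n + 1) m hm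
        have e2 := h.adjoint (n + 1) m hm
        have e3 := h'.trivial (n + 1) m hm
        have e4 := h'.adjoint (n + 1) m hm
        rw [(mult_Phi_succ n _ _ h2).1, Phi_congr ih] at e1
        rw [(mult_Phi_succ n _ _ h2).2, Phi_congr ih] at e2
        rw [(mult_Phi_succ n _ _ h2).1] at e3
        rw [(mult_Phi_succ n _ _ h2).2] at e4
        constructor <;> linarith
  constructor
  · ext m
    exact (key m.degree m le_rfl).1
  · ext m
    exact (key m.degree m le_rfl).2

end Pool.Agent.R929.Shang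

end
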