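import Mathlib

/-!
# The computation of the first coefficients: tables
-/

set_option autoImplicit false

namespace Pool.Agent.R929.Shang

/-- Sum of two lists of coefficients. -/
def addL : List ℤ → List ℤ → List ℤ
  | [], l => l
  | a :: l, [] => a :: l
  | a :: l, b :: m => (a + b) :: addL l m

/-- Sum of two matrices of coefficients. -/
def add2 : List (List ℤ) → List (List ℤ) → List (List ℤ)
  | [], l => l
  | a :: l, [] => a :: l
  | a :: l, b :: m => addL a b :: add2 l m

/-- Multiplication by a scalar. -/
def scale2 (c : ℤ) (M : List (List ℤ)) : List (List ℤ) := M.map fun l => l.map fun a => c * a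

/-- Multiplication by `x ^ p y ^ q`. -/
def shift2 (p q : ℕ) (M : List (List ℤ)) : List (List ℤ) :=
  List.replicate p [] ++ M.map fun l => List.replicate q 0 ++ l

/-- Binomial coefficients with signs. -/
def sgnChoose (c j : ℕ) : ℤ :=
  if j % 2 = 0 then (c.descFactorial j / j.factorial : ℕ) else -(c.descFactorial j / j.factorial : ℕ)

/-- The coefficient of `t ^ d` of the product with `(1 - t ^ n x ^ p y ^ q) ^ c`. -/
def mulEntry (n p q c : ℕ) (T : List (List (List ℤ))) (d : ℕ) : ℕ → List (List ℤ)
  | 0 => T.getD d []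
  | j + 1 => if n * (j + 1) ≤ d then
      add2 (scale2 (sgnChoose c (j + 1)) (shift2 ((j + 1) * p) ((j + 1) * q) (T.getD (d - n * (j + 1)) [])))
        (mulEntry n p q c T d j)
    else mulEntry n p q c T d j

/-- The product with `(1 - t ^ n x ^ p y ^ q) ^ c`, up to `t ^ 10`. -/
def mulF (n p q c : ℕ) (T : List (List (List ℤ))) : List (List (List ℤ)) :=
  (List.range 11).map fun d => mulEntry n p q c T d 10

/-- The product with the factors for `n`. -/
def stepT (n a b : ℕ) (T : List (List (List ℤ))) : List (List (List ℤ)) :=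
  mulF n (n - 1) (n - 1) a <| mulF n n (n - 1) a <| mulF n (n - 1) n a <|
    mulF n (n + 1) (n + 1) a <| mulF n n (n + 1) a <| mulF n (n + 1) n a <|
      mulF n n n (b + 2 * a) T

/-- The first table. -/
def T0 : List (List (List ℤ)) := [[[-1, 1], [1, 0, -1], [0, -1, 1]]]

/-- The check. -/
def run : ℕ → List (ℕ × ℕ) → List (List (List ℤ)) → Bool
  | _, [], _ => true
  | n, (a, b) :: l, T =>
    (((T.getD n []).getD (n + 2) []).getD (n + 2) 0 == (b : ℤ)) &&
      (((T.getD n []).getD (n + 3) []).getD (n + 3) 0 + (if n = 1 then 3 else 0) == (a : ℤ)) &&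
        run (n + 1) l (stepT n a b T)

/-- The numbers. -/
def nums : List (ℕ × ℕ) := [(3, 0), (9, 3), (28, 16), (87, 60), (267, 210), (804, 670),
  (2373, 2094), (6891, 6276), (19818, 18474), (56961, 53586)]

end Pool.Agent.R929.Shang
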