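import Pool.Agent.R929.Shang.Defs
import Pool.Agent.R929.Shang.Tab

/-!
# The meaning of the tables
-/

set_option autoImplicit false

noncomputable section

namespace Pool.Agent.R929.Shang

/-- `e ^ α₁`. -/
def xx : Wt := ex (1, 0)

/-- `e ^ α₂`. -/
def yy : Wt := ex (0, 1)

theorem ex_mul (v w : ℤ × ℤ) : ex v * ex w = ex (v + w) := by
  rw [ex, ex, AddMonoidAlgebra.single_mul_single, one_mul]

theorem xx_pow (p : ℕ) : xx ^ p = ex (p, 0) := by
  rw [xx, ex, AddMonoidAlgebra.single_pow, one_pow]
  simp

theorem yy_pow (p : ℕ) : yy ^ p = ex (0, p) := by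
  rw [yy, ex, AddMonoidAlgebra.single_pow, one_pow]
  simp

theorem xxyy (p q : ℕ) : xx ^ p * yy ^ q = ex (p, q) := by
  rw [xx_pow, yy_pow, ex_mul]; simp

theorem ex_coeff (v w : ℤ × ℤ) (F : Wt) : (ex v * F).coeff w = F.coeff (-v + w) := by
  rw [ex, AddMonoidAlgebra.coeff_single_mul_apply, one_mul]

/-- The polynomial in `yy` with the given coefficients. -/
def sem1 : List ℤ → Wt
  | [] => 0
  | a :: l => AddMonoidAlgebra.single 0 a + yy * sem1 l

/-- The polynomial in `xx`, `yy` with the given coefficients. -/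
def sem2 : List (List ℤ) → Wt
  | [] => 0
  | r :: l => sem1 r + xx * sem2 l

theorem sem1_addL (l m : List ℤ) : sem1 (addL l m) = sem1 l + sem1 m := by
  induction l generalizing m with
  | nil => rw [addL, sem1, zero_add]
  | cons a l ih =>
    cases m with
    | nil => rw [addL, sem1, sem1, add_zero]
    | cons b m => rw [addL, sem1, sem1, sem1, ih, AddMonoidAlgebra.single_add]; ring

theorem sem2_add2 (l m : List (List ℤ)) : sem2 (add2 l m) = sem2 l + sem2 m := by
  induction l generalizing m with
  | nil => rw [add2, sem2, zero_add]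
  | cons a l ih =>
    cases m with
    | nil => rw [add2, sem2, sem2, add_zero]
    | cons b m => rw [add2, sem2, sem2, sem2, ih, sem1_addL]; ring

theorem sem1_scale (c : ℤ) (l : List ℤ) : sem1 (l.map fun a => c * a) = c • sem1 l := by
  induction l with
  | nil => rw [List.map_nil, sem1, smul_zero]
  | cons a l ih =>
    rw [List.map_cons, sem1, sem1, ih, smul_add, mul_smul_comm, AddMonoidAlgebra.smul_single,
      smul_eq_mul]

theorem sem2_scale2 (c : ℤ) (M : List (List ℤ)) : sem2 (scale2 c M) = c • sem2 M := by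
  induction M with
  | nil => rw [scale2, List.map_nil, sem2, smul_zero]
  | cons a l ih =>
    rw [scale2] at ih ⊢
    rw [List.map_cons, sem2, sem2, ih, sem1_scale, smul_add, mul_smul_comm]

theorem sem1_shift (q : ℕ) (l : List ℤ) : sem1 (List.replicate q 0 ++ l) = yy ^ q * sem1 l := by
  induction q with
  | zero => simp
  | succ q ih =>
    rw [List.replicate_succ, List.cons_append, sem1, ih, AddMonoidAlgebra.single_zero]; ring

theorem sem2_shift2 (p q : ℕ) (M : List (List ℤ)) :
    sem2 (shift2 p q M) = xx ^ p * yy ^ q * sem2 M := by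
  induction p with
  | zero =>
    rw [shift2, List.replicate_zero, List.nil_append, pow_zero, one_mul]
    induction M with
    | nil => rw [List.map_nil, sem2, mul_zero]
    | cons a l ih => rw [List.map_cons, sem2, sem2, ih, sem1_shift]; ring
  | succ p ih =>
    rw [shift2] at ih ⊢
    rw [List.replicate_succ, List.cons_append, sem2, ih, sem1]; ring

theorem sem1_coeff (l : List ℤ) (i j : ℤ) :
    (sem1 l).coeff (i, j) = if i = 0 ∧ 0 ≤ j then l.getD j.toNat 0 else 0 := by
  induction l generalizing i j with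
  | nil => simp [sem1]
  | cons a l ih =>
    rw [sem1, AddMonoidAlgebra.coeff_add, Finsupp.add_apply, AddMonoidAlgebra.coeff_single, yy,
      ex_coeff, Finsupp.single_apply]
    have h1 : (-((0 : ℤ), (1 : ℤ)) + (i, j)) = (i, j - 1) := by
      ext <;> simp; ring
    rw [h1, ih]
    by_cases hi : i = 0
    · subst hi
      rcases lt_trichotomy j 0 with hj | hj | hj
      · rw [if_neg (by intro h; have := congrArg Prod.snd h; simp at this; omega),
          if_neg (by omega), if_neg (by omega)]; simp
      · subst hj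
        rw [if_pos (by rfl), if_neg (by omega), if_pos (by omega)]; simp
      · rw [if_neg (by intro h; have := congrArg Prod.snd h; simp at this; omega),
          if_pos (by omega), if_pos (by omega)]
        obtain ⟨u, rfl⟩ : ∃ u : ℕ, j = u + 1 := ⟨(j - 1).toNat, by omega⟩
        have h2 : ((u : ℤ) + 1 - 1).toNat = u := by omega
        have h3 : ((u : ℤ) + 1).toNat = u + 1 := by omega
        rw [h2, h3]; simp
    · rw [if_neg (by intro h; have := congrArg Prod.fst h; simp at this; exact hi this.symm),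
        if_neg (by tauto), if_neg (by tauto)]; simp

theorem sem2_coeff_neg (M : List (List ℤ)) (i j : ℤ) (hi : i < 0) :
    (sem2 M).coeff (i, j) = 0 := by
  induction M generalizing i with
  | nil => simp [sem2]
  | cons a l ih =>
    rw [sem2, AddMonoidAlgebra.coeff_add, Finsupp.add_apply, xx, ex_coeff, sem1_coeff,
      if_neg (by omega)]
    have h1 : (-((1 : ℤ), (0 : ℤ)) + (i, j)) = (i - 1, j) := by
      ext <;> simp; ring
    rw [h1, ih _ (by omega), add_zero]

theorem sem2_coeff (M : List (List ℤ)) (i j : ℕ) :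
    (sem2 M).coeff ((i : ℤ), (j : ℤ)) = (M.getD i []).getD j 0 := by
  induction M generalizing i with
  | nil => simp [sem2]
  | cons a l ih =>
    rw [sem2, AddMonoidAlgebra.coeff_add, Finsupp.add_apply, xx, ex_coeff, sem1_coeff]
    have h1 : (-((1 : ℤ), (0 : ℤ)) + ((i : ℤ), (j : ℤ))) = ((i : ℤ) - 1, (j : ℤ)) := by
      ext <;> simp; ring
    rw [h1]
    cases i with
    | zero =>
      rw [sem2_coeff_neg _ _ _ (by simp), if_pos (by simp), add_zero]; simp
    | succ i =>
      rw [if_neg (by rintro ⟨h, -⟩; push_cast at h; omega), zero_add]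
      have h2 : (((i + 1 : ℕ) : ℤ) - 1) = (i : ℤ) := by push_cast; ring
      rw [h2, ih]; simp

/-! ### Power series -/

/-- The table `T` gives the coefficients of `F` up to `t ^ 10`. -/
def Rep (T : List (List (List ℤ))) (F : PowerSeries Wt) : Prop :=
  ∀ d ≤ 10, PowerSeries.coeff d F = sem2 (T.getD d [])

theorem sgnChoose_eq (c j : ℕ) : sgnChoose c j = (-1) ^ j * (c.choose j : ℤ) := by
  rw [sgnChoose, ← Nat.choose_eq_descFactorial_div_factorial]
  rcases Nat.even_or_odd j with h | h
  · rw [if_pos (Nat.even_iff.1 h), h.neg_one_pow, one_mul]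
  · rw [if_neg (by rw [Nat.odd_iff.1 h]; norm_num), h.neg_one_pow, neg_one_mul]

theorem mulEntry_eq (n p q c : ℕ) (T : List (List (List ℤ))) (d J : ℕ) :
    sem2 (mulEntry n p q c T d J) = ∑ j ∈ Finset.range (J + 1), if n * j ≤ d then
      sgnChoose c j • ((xx ^ p * yy ^ q) ^ j * sem2 (T.getD (d - n * j) [])) else 0 := by
  induction J with
  | zero => simp [mulEntry, sgnChoose]
  | succ J ih =>
    rw [Finset.sum_range_succ, ← ih, mulEntry]
    split_ifs with h
    · rw [sem2_add2, sem2_scale2, sem2_shift2, add_comm]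
      congr 3
      rw [mul_pow, ← pow_mul, ← pow_mul, mul_comm p, mul_comm q]
    · rw [add_zero]

theorem coeff_pow_mul (n c d : ℕ) (e : Wt) (F : PowerSeries Wt) :
    PowerSeries.coeff d ((1 - PowerSeries.C e * PowerSeries.X ^ n) ^ c * F) =
      ∑ j ∈ Finset.range (c + 1), if n * j ≤ d then
        sgnChoose c j • (e ^ j * PowerSeries.coeff (d - n * j) F) else 0 := by
  have h1 : (1 - PowerSeries.C e * PowerSeries.X ^ n : PowerSeries Wt) ^ c =
      ∑ j ∈ Finset.range (c + 1), sgnChoose c j • (PowerSeries.C (e ^ j) *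
        PowerSeries.X ^ (n * j)) := by
    rw [sub_eq_neg_add, add_pow]
    refine Finset.sum_congr rfl fun j _ => ?_
    rw [sgnChoose_eq, one_pow, mul_one, neg_pow, mul_pow, ← map_pow, ← pow_mul, zsmul_eq_mul]
    push_cast
    ring
  rw [h1, Finset.sum_mul, map_sum]
  refine Finset.sum_congr rfl fun j _ => ?_
  rw [smul_mul_assoc, map_zsmul, mul_assoc, PowerSeries.coeff_C_mul, PowerSeries.coeff_X_pow_mul']
  split_ifs with h
  · rfl
  · rw [mul_zero, smul_zero]

theorem rep_mulF {n p q c : ℕ} (hn : 0 < n) {T : List (List (List ℤ))} {F : PowerSeries Wt}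
    (h : Rep T F) :
    Rep (mulF n p q c T) ((1 - PowerSeries.C (xx ^ p * yy ^ q) * PowerSeries.X ^ n) ^ c * F) := by
  intro d hd
  have h1 : (mulF n p q c T).getD d [] = mulEntry n p q c T d 10 := by
    rw [mulF, List.getD_eq_getElem?_getD, List.getElem?_map, List.getElem?_range (by omega)]; rfl
  rw [h1, mulEntry_eq, coeff_pow_mul]
  have h2 : ∀ J, (c ≤ J ∨ 10 ≤ J) → (∑ j ∈ Finset.range (J + 1), if n * j ≤ d then
      sgnChoose c j • ((xx ^ p * yy ^ q) ^ j * PowerSeries.coeff (d - n * j) F) else 0) =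
      ∑ j ∈ Finset.range (c + 10 + 1 + J), if n * j ≤ d then
      sgnChoose c j • ((xx ^ p * yy ^ q) ^ j * PowerSeries.coeff (d - n * j) F) else 0 := by
    intro J hJ
    refine Finset.sum_subset (Finset.range_subset_range.2 (by omega)) ?_
    intro j _ hj
    rw [Finset.mem_range] at hj
    rcases hJ with hJ | hJ
    · rw [sgnChoose_eq, Nat.choose_eq_zero_of_lt (by omega)]; simp
    · rw [if_neg]
      have : j ≤ n * j := Nat.le_mul_of_pos_left j hn
      omega
  have h3 : ∀ J, (∑ j ∈ Finset.range (J + 1), if n * j ≤ d then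
      sgnChoose c j • ((xx ^ p * yy ^ q) ^ j * sem2 (T.getD (d - n * j) [])) else 0) =
      ∑ j ∈ Finset.range (J + 1), if n * j ≤ d then
      sgnChoose c j • ((xx ^ p * yy ^ q) ^ j * PowerSeries.coeff (d - n * j) F) else 0 := by
    intro J
    refine Finset.sum_congr rfl fun j _ => ?_
    split_ifs with h4
    · rw [h _ (by omega)]
    · rfl
  rw [h3, h2 c (Or.inl le_rfl), h2 10 (Or.inr le_rfl)]
  have h5 : ∀ J, (c ≤ J ∧ 10 ≤ J) → (∑ j ∈ Finset.range (J + 1), if n * j ≤ d then
      sgnChoose c j • ((xx ^ p * yy ^ q) ^ j * PowerSeries.coeff (d - n * j) F) else 0) =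
      ∑ j ∈ Finset.range (c + 10 + 1), if n * j ≤ d then
      sgnChoose c j • ((xx ^ p * yy ^ q) ^ j * PowerSeries.coeff (d - n * j) F) else 0 := by
    intro J hJ
    rw [h2 J (Or.inl hJ.1), h2 (c + 10) (Or.inl (by omega))]
    have h6 : ∀ K, c ≤ K → (∑ j ∈ Finset.range (c + 10 + 1 + K), if n * j ≤ d then
      sgnChoose c j • ((xx ^ p * yy ^ q) ^ j * PowerSeries.coeff (d - n * j) F) else 0) =
      ∑ j ∈ Finset.range (c + 1), if n * j ≤ d then
      sgnChoose c j • ((xx ^ p * yy ^ q) ^ j * PowerSeries.coeff (d - n * j) F) else 0 := by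
      intro K hK
      symm
      refine Finset.sum_subset (Finset.range_subset_range.2 (by omega)) ?_
      intro j _ hj
      rw [Finset.mem_range] at hj
      rw [sgnChoose_eq, Nat.choose_eq_zero_of_lt (by omega)]; simp
    rw [h6 J hJ.1, h6 (c + 10) (by omega)]
  have h7 := h5 (c + 10 + c) (by omega)
  have h8 := h5 (c + 10 + 10) (by omega)
  rw [show c + 10 + c + 1 = c + 10 + 1 + c by ring] at h7
  rw [h7, h8]

end Pool.Agent.R929.Shang

end
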