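import Pool.Agent.R929.Shang.Rec
import Pool.Agent.R929.Shang.Lower

/-!
# Specialization to one variable
-/

set_option autoImplicit false

noncomputable section

namespace Pool.Agent.R929.Shang

open Finset

variable {D : ℕ}

/-- The first three variables. -/
def S3 (D : ℕ) : Finset (Fin D) := Finset.univ.filter fun i => i.1 < 3

/-- The multidegrees of degree `n` in the first three variables. -/
def T3 (D n : ℕ) : Finset (Fin D →₀ ℕ) := Finset.finsuppAntidiag (S3 D) n

theorem mem_T3 {n : ℕ} {m : Fin D →₀ ℕ} : m ∈ T3 D n ↔ m.degree = n ∧ m.support ⊆ S3 D := by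
  rw [T3, Finset.mem_finsuppAntidiag]
  constructor
  · rintro ⟨h1, h2⟩
    refine ⟨?_, h2⟩
    rw [← h1, Finsupp.degree_apply]
    exact Finset.sum_subset h2 fun i _ hi => Finsupp.notMem_support_iff.1 hi
  · rintro ⟨h1, h2⟩
    refine ⟨?_, h2⟩
    rw [← h1, Finsupp.degree_apply]
    exact (Finset.sum_subset h2 fun i _ hi => Finsupp.notMem_support_iff.1 hi).symm

theorem add_mem_T3 {i j : ℕ} {p q : Fin D →₀ ℕ} (hp : p ∈ T3 D i) (hq : q ∈ T3 D j) :
    p + q ∈ T3 D (i + j) := by
  rw [mem_T3] at *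
  refine ⟨by rw [map_add, hp.1, hq.1], ?_⟩
  exact Finsupp.support_add.trans (Finset.union_subset hp.2 hq.2)

theorem mem_T3_of_add {n : ℕ} {p q : Fin D →₀ ℕ} (h : p + q ∈ T3 D n) :
    p ∈ T3 D p.degree ∧ q ∈ T3 D q.degree ∧ p.degree + q.degree = n := by
  rw [mem_T3] at h
  rw [mem_T3, mem_T3]
  refine ⟨⟨rfl, ?_⟩, ⟨rfl, ?_⟩, by rw [← h.1, map_add]⟩
  · intro i hi
    apply h.2
    rw [Finsupp.mem_support_iff] at hi ⊢
    rw [Finsupp.add_apply]
    omega
  · intro i hi
    apply h.2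
    rw [Finsupp.mem_support_iff] at hi ⊢
    rw [Finsupp.add_apply]
    omega

theorem sum_T3_mul {A : Type} [CommRing A] (F G : (Fin D →₀ ℕ) → A) (n : ℕ) :
    ∑ m ∈ T3 D n, ∑ p ∈ antidiagonal m, F p.1 * G p.2 =
      ∑ ij ∈ antidiagonal n, (∑ p ∈ T3 D ij.1, F p) * ∑ q ∈ T3 D ij.2, G q := by
  have h1 : ∀ ij : ℕ × ℕ, (∑ p ∈ T3 D ij.1, F p) * ∑ q ∈ T3 D ij.2, G q =
      ∑ pq ∈ T3 D ij.1 ×ˢ T3 D ij.2, F pq.1 * G pq.2 := fun ij => by
    rw [Finset.sum_mul_sum, Finset.sum_product]
  simp only [h1]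
  rw [Finset.sum_sigma', Finset.sum_sigma']
  refine Finset.sum_bij' (fun x _ => ⟨(x.2.1.degree, x.2.2.degree), x.2⟩)
    (fun y _ => ⟨y.2.1 + y.2.2, y.2⟩) ?_ ?_ ?_ ?_ ?_
  · rintro ⟨m, p, q⟩ h
    rw [Finset.mem_sigma, HasAntidiagonal.mem_antidiagonal] at h
    obtain ⟨h1, h2⟩ := h
    simp only at h1 h2
    rw [← h2] at h1
    obtain ⟨h3, h4, h5⟩ := mem_T3_of_add h1
    rw [Finset.mem_sigma, HasAntidiagonal.mem_antidiagonal, Finset.mem_product]
    exact ⟨h5, h3, h4⟩
  · rintro ⟨⟨i, j⟩, p, q⟩ h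
    rw [Finset.mem_sigma, HasAntidiagonal.mem_antidiagonal, Finset.mem_product] at h
    obtain ⟨h1, h2, h3⟩ := h
    simp only at h1 h2 h3
    rw [Finset.mem_sigma, HasAntidiagonal.mem_antidiagonal]
    refine ⟨?_, rfl⟩
    simp only
    rw [← h1]
    exact add_mem_T3 h2 h3
  · rintro ⟨m, p, q⟩ h
    rw [Finset.mem_sigma, HasAntidiagonal.mem_antidiagonal] at h
    obtain ⟨h1, h2⟩ := h
    simp only at h1 h2
    subst h2
    rfl
  · rintro ⟨⟨i, j⟩, p, q⟩ h
    rw [Finset.mem_sigma, HasAntidiagonal.mem_antidiagonal, Finset.mem_product] at h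
    obtain ⟨h1, h2, h3⟩ := h
    simp only at h1 h2 h3
    rw [mem_T3] at h2 h3
    obtain ⟨rfl, -⟩ := h2
    obtain ⟨rfl, -⟩ := h3
    rfl
  · rintro ⟨m, p, q⟩ _
    rfl

theorem zero_mem_T3 {n : ℕ} : (0 : Fin D →₀ ℕ) ∈ T3 D n ↔ n = 0 := by
  rw [mem_T3, map_zero]
  simp [eq_comm]

/-- The substitution `t` for the first three variables, and `0` for the other variables. -/
def spec (D : ℕ) (A : Type) [CommRing A] : MvPowerSeries (Fin D) A →+* PowerSeries A where
  toFun F := PowerSeries.mk fun n => ∑ m ∈ T3 D n, MvPowerSeries.coeff m F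
  map_one' := by
    classical
    ext n
    rw [PowerSeries.coeff_mk, PowerSeries.coeff_one]
    simp only [MvPowerSeries.coeff_one]
    rw [Finset.sum_ite_eq' (T3 D n) (0 : Fin D →₀ ℕ) (fun _ => (1 : A))]
    simp only [zero_mem_T3]
  map_mul' F G := by
    classical
    ext n
    rw [PowerSeries.coeff_mk, PowerSeries.coeff_mul]
    simp only [PowerSeries.coeff_mk, MvPowerSeries.coeff_mul]
    exact sum_T3_mul (fun m => MvPowerSeries.coeff m F) (fun m => MvPowerSeries.coeff m G) n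
  map_zero' := by
    ext n
    simp
  map_add' F G := by
    ext n
    simp [Finset.sum_add_distrib]

theorem coeff_spec {A : Type} [CommRing A] (F : MvPowerSeries (Fin D) A) (n : ℕ) :
    PowerSeries.coeff n (spec D A F) = ∑ m ∈ T3 D n, MvPowerSeries.coeff m F := by
  show PowerSeries.coeff n (PowerSeries.mk fun n => ∑ m ∈ T3 D n, MvPowerSeries.coeff m F) = _
  rw [PowerSeries.coeff_mk]

theorem prod_zpow_sum {ι M : Type} [CommGroup M] (s : Finset ι) (f : ι → ℤ) (u : M) :
    ∏ i ∈ s, u ^ f i = u ^ ∑ i ∈ s, f i := by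
  classical
  induction s using Finset.induction_on with
  | empty => simp
  | insert a s ha ih => rw [Finset.prod_insert ha, Finset.sum_insert ha, ih, zpow_add]

theorem isUnit_fac {m : Fin D →₀ ℕ} (hm : m ≠ 0) (w : ℤ × ℤ) :
    IsUnit (1 - MvPowerSeries.monomial m (ex w) : MvPowerSeries (Fin D) Wt) := by
  classical
  rw [MvPowerSeries.isUnit_iff_constantCoeff, map_sub, map_one,
    ← MvPowerSeries.coeff_zero_eq_constantCoeff_apply, MvPowerSeries.coeff_monomial,
    if_neg (Ne.symm hm), sub_zero]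
  exact isUnit_one

theorem fac_val {m : Fin D →₀ ℕ} (hm : m ≠ 0) (w : ℤ × ℤ) :
    (fac m w : MvPowerSeries (Fin D) Wt) = 1 - MvPowerSeries.monomial m (ex w) := by
  rw [fac, dif_pos (isUnit_fac hm w), IsUnit.unit_spec]

theorem spec_monomial (m : Fin D →₀ ℕ) (c : Wt) :
    spec D Wt (MvPowerSeries.monomial m c) =
      if m.support ⊆ S3 D then PowerSeries.C c * PowerSeries.X ^ m.degree else 0 := by
  classical
  ext1 n
  rw [coeff_spec]
  simp only [MvPowerSeries.coeff_monomial]
  rw [Finset.sum_ite_eq' (T3 D n) m (fun _ => c)]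
  by_cases h : m.support ⊆ S3 D
  · rw [if_pos h, PowerSeries.coeff_C_mul, PowerSeries.coeff_X_pow]
    by_cases h2 : n = m.degree
    · rw [if_pos (mem_T3.2 ⟨h2.symm, h⟩), if_pos h2, mul_one]
    · rw [if_neg (fun h3 => h2 (mem_T3.1 h3).1.symm), if_neg h2, mul_zero]
  · rw [if_neg h, if_neg (fun h3 => h (mem_T3.1 h3).2)]
    simp

theorem degree_ne_zero {m : Fin D →₀ ℕ} (hm : m ≠ 0) : m.degree ≠ 0 := by
  intro h
  exact hm ((Finsupp.degree_eq_zero_iff m).1 h)

/-- The specialization on the units. -/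
def specU (D : ℕ) : (MvPowerSeries (Fin D) Wt)ˣ →* (PowerSeries Wt)ˣ :=
  Units.map (spec D Wt).toMonoidHom

theorem specU_fac {m : Fin D →₀ ℕ} (hm : m ≠ 0) (w : ℤ × ℤ) :
    specU D (fac m w) = if m.support ⊆ S3 D then ufac m.degree w else 1 := by
  apply Units.ext
  show spec D Wt (fac m w : MvPowerSeries (Fin D) Wt) = _
  rw [fac_val hm, map_sub, map_one, spec_monomial]
  split_ifs
  · rw [ufac_val (degree_ne_zero hm)]
  · rw [sub_zero, Units.val_one]

theorem mem_degs {N : ℕ} {m : Fin D →₀ ℕ} : m ∈ degs D N ↔ 1 ≤ m.degree ∧ m.degree ≤ N := by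
  rw [degs, Finset.mem_biUnion]
  constructor
  · rintro ⟨n, hn, hm⟩
    rw [Finset.mem_finsuppAntidiag] at hm
    rw [Finset.mem_Icc] at hn
    have h1 : m.degree = n := by
      rw [← hm.1, Finsupp.degree_apply]
      exact Finset.sum_subset (Finset.subset_univ _) fun i _ hi => Finsupp.notMem_support_iff.1 hi
    omega
  · intro h
    refine ⟨m.degree, Finset.mem_Icc.2 h, Finset.mem_finsuppAntidiag.2 ⟨?_, Finset.subset_univ _⟩⟩
    rw [Finsupp.degree_apply]
    exact (Finset.sum_subset (Finset.subset_univ _)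
      fun i _ hi => Finsupp.notMem_support_iff.1 hi).symm

/-- The sum of the coefficients of degree `n` in the first three variables. -/
def tot (D : ℕ) (a : MvPowerSeries (Fin D) ℤ) (n : ℕ) : ℤ :=
  ∑ m ∈ T3 D n, MvPowerSeries.coeff m a

theorem spec_Phi (N : ℕ) (a b : MvPowerSeries (Fin D) ℤ) :
    spec D Wt (Phi N a b) = (Q N (tot D a) (tot D b) : PowerSeries Wt) := by
  classical
  have h1 : specU D (∏ m ∈ degs D N, (fac m 0 ^ (MvPowerSeries.coeff m b +
      2 * MvPowerSeries.coeff m a) * ∏ w ∈ roots, fac m w ^ MvPowerSeries.coeff m a)) =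
      Q N (tot D a) (tot D b) := by
    have hdisj : ∀ i ∈ Finset.Icc 1 N, ∀ j ∈ Finset.Icc 1 N, i ≠ j →
        Disjoint (T3 D i) (T3 D j) := by
      intro i _ j _ hij
      rw [Finset.disjoint_left]
      intro m h1 h2
      rw [mem_T3] at h1 h2
      exact hij (h1.1.symm.trans h2.1)
    have hsub : (Finset.Icc 1 N).biUnion (fun n => T3 D n) ⊆ degs D N := by
      intro m hm
      rw [Finset.mem_biUnion] at hm
      obtain ⟨n, hn, hm⟩ := hm
      rw [mem_T3] at hm
      rw [Finset.mem_Icc] at hn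
      rw [mem_degs, hm.1]
      exact hn
    rw [map_prod, ← Finset.prod_subset hsub]
    · rw [Finset.prod_biUnion hdisj, Q]
      refine Finset.prod_congr rfl fun n hn => ?_
      rw [Finset.mem_Icc] at hn
      have h2 : ∀ m ∈ T3 D n, ∀ w : ℤ × ℤ, specU D (fac m w) = ufac n w := by
        intro m hm w
        rw [mem_T3] at hm
        have hm0 : m ≠ 0 := by
          rintro rfl
          rw [map_zero] at hm
          omega
        rw [specU_fac hm0, if_pos hm.2, hm.1]
      rw [G]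
      simp only [map_mul, map_zpow, map_prod]
      rw [Finset.prod_mul_distrib]
      congr 1
      · rw [Finset.prod_congr rfl fun m hm => by rw [h2 m hm 0]]
        rw [prod_zpow_sum]
        congr 1
        rw [tot, tot, Finset.mul_sum, ← Finset.sum_add_distrib]
      · rw [Finset.prod_comm]
        refine Finset.prod_congr rfl fun w _ => ?_
        rw [Finset.prod_congr rfl fun m hm => by rw [h2 m hm w]]
        rw [prod_zpow_sum, tot]
    · intro m hm hm2
      rw [mem_degs] at hm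
      have hm0 : m ≠ 0 := by
        rintro rfl
        rw [map_zero] at hm
        omega
      have hs : ¬ m.support ⊆ S3 D := by
        intro hs
        exact hm2 (Finset.mem_biUnion.2 ⟨m.degree, Finset.mem_Icc.2 hm, mem_T3.2 ⟨rfl, hs⟩⟩)
      simp only [map_mul, map_zpow, map_prod, specU_fac hm0, if_neg hs, one_zpow, one_mul,
        Finset.prod_const_one]
  have h2 := congrArg (fun u : (PowerSeries Wt)ˣ => (u : PowerSeries Wt)) h1
  exact h2

theorem mult_sum {ι : Type} (s : Finset ι) (w : ℤ × ℤ) (F : ι → Wt) :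
    mult w (∑ i ∈ s, F i) = ∑ i ∈ s, mult w (F i) := by
  rw [← multHom_apply, map_sum]; rfl

theorem card_S3 (hD : 3 ≤ D) : (S3 D).card = 3 := by
  have h1 : S3 D = Finset.univ.map (Fin.castLEEmb hD) := by
    ext i
    simp only [S3, Finset.mem_filter, Finset.mem_univ, true_and, Finset.mem_map]
    constructor
    · intro h
      exact ⟨⟨i.1, h⟩, by ext; rfl⟩
    · rintro ⟨j, rfl⟩
      exact j.2
  rw [h1, Finset.card_map, Finset.card_univ, Fintype.card_fin]

theorem sum_X (hD : 3 ≤ D) (n : ℕ) :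
    ∑ m ∈ T3 D (n + 1), MvPowerSeries.coeff m (∑ i, MvPowerSeries.X i :
      MvPowerSeries (Fin D) ℤ) = if n = 0 then 3 else 0 := by
  classical
  have h1 : ∀ i : Fin D, ∑ m ∈ T3 D (n + 1), MvPowerSeries.coeff m
      (MvPowerSeries.X i : MvPowerSeries (Fin D) ℤ) = if n = 0 ∧ i ∈ S3 D then 1 else 0 := by
    intro i
    simp only [MvPowerSeries.coeff_X]
    rw [Finset.sum_ite_eq' (T3 D (n + 1)) (Finsupp.single i 1) (fun _ => (1 : ℤ))]
    have h2 : (Finsupp.single i 1 : Fin D →₀ ℕ) ∈ T3 D (n + 1) ↔ n = 0 ∧ i ∈ S3 D := by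
      rw [mem_T3, Finsupp.support_single _ one_ne_zero, Finset.singleton_subset_iff]
      simp [eq_comm]
    simp only [h2]
  simp only [map_sum]
  rw [Finset.sum_comm]
  simp only [h1]
  by_cases hn : n = 0
  · simp only [hn, true_and, if_true]
    rw [Finset.sum_boole]
    have h3 : Finset.univ.filter (fun i => i ∈ S3 D) = S3 D := by
      ext i; simp
    rw [h3, card_S3 hD]; rfl
  · simp [hn]

theorem tot_eq (hD : 3 ≤ D) {a b : MvPowerSeries (Fin D) ℤ} (h : IsSolution a b) :
    tot D a 10 = 56961 := by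
  classical
  refine A_ten (A := tot D a) (B := tot D b) ?_ ?_
  · intro n hn
    rw [← spec_Phi, coeff_spec, mult_sum]
    refine Finset.sum_eq_zero fun m hm => ?_
    rw [mem_T3] at hm
    rw [h.trivial 10 m (by omega), MvPowerSeries.coeff_one, if_neg]
    rintro rfl
    rw [map_zero] at hm
    omega
  · intro n hn
    rw [← spec_Phi, coeff_spec, mult_sum]
    have h1 : ∀ m ∈ T3 D (n + 1), mult (1, 1) (MvPowerSeries.coeff m (Phi 10 a b)) =
        -MvPowerSeries.coeff m (∑ i, MvPowerSeries.X i : MvPowerSeries (Fin D) ℤ) := by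
      intro m hm
      rw [mem_T3] at hm
      exact h.adjoint 10 m (by omega)
    rw [Finset.sum_congr rfl h1, Finset.sum_neg_distrib, sum_X hD]
    split_ifs <;> simp

/-- The lower bound for the degree `10`. -/
theorem le_tot (k : Type) [Field k] (hD : 3 ≤ D) : (59049 : ℤ) ≤ tot D (altClass k D) 10 := by
  classical
  let W : Finset (Fin 10 → Fin D) := Fintype.piFinset fun _ => S3 D
  have hW : W.card = 59049 := by
    rw [Fintype.card_piFinset, Finset.prod_const, card_S3 hD]; rfl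
  let c : (Fin 10 → Fin D) → (Fin D →₀ ℕ) := fun f => ∑ j, Finsupp.single (f j) 1
  have hc : ∀ f ∈ W, c f ∈ T3 D 10 := by
    intro f hf
    rw [Fintype.mem_piFinset] at hf
    rw [mem_T3]
    constructor
    · rw [map_sum]; simp
    · intro i hi
      rw [Finsupp.mem_support_iff] at hi
      by_contra h
      apply hi
      rw [Finsupp.finsetSum_apply]
      refine Finset.sum_eq_zero fun j _ => ?_
      rw [Finsupp.single_apply, if_neg]
      rintro rfl
      exact h (hf j)
  have h1 := Finset.card_eq_sum_card_fiberwise hc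
  rw [hW] at h1
  have h2 : ∀ m ∈ T3 D 10, (W.filter fun f => c f = m).card ≤
      Module.finrank k (altPiece k D m) := by
    intro m _
    refine card_le_finrank 9 m _ ?_
    intro f hf
    exact (Finset.mem_filter.1 hf).2
  have h3 := Finset.sum_le_sum h2
  have h4 : (59049 : ℕ) ≤ ∑ m ∈ T3 D 10, Module.finrank k (altPiece k D m) := h1.le.trans h3
  have h5 : tot D (altClass k D) 10 =
      ((∑ m ∈ T3 D 10, Module.finrank k (altPiece k D m) : ℕ) : ℤ) := by
    rw [tot, Nat.cast_sum]; rfl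
  rw [h5]
  exact_mod_cast h4

theorem ne_altClass (k : Type) [Field k] (hD : 3 ≤ D) {a b : MvPowerSeries (Fin D) ℤ}
    (h : IsSolution a b) : altClass k D ≠ a := by
  rintro rfl
  have h1 := tot_eq hD h
  have h2 := le_tot k hD
  omega

end Pool.Agent.R929.Shang

end
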